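import Mathlib
import Pool.Agent.Results.MP_9322ca_co.OrderOfMagnitude

set_option autoImplicit false

namespace Pool.Agent.Results.MP_b430f2_co.AffineClasses

open Finset

/-- `A` and `B` are affinely equivalent: an invertible affine map of `ℝ^d` maps `A` onto `B`. -/
def AffEq {d : ℕ} (A B : Finset (Fin d → ℝ)) : Prop :=
  ∃ T : (Fin d → ℝ) ≃ᵃ[ℝ] (Fin d → ℝ), T '' (A : Set (Fin d → ℝ)) = (B : Set (Fin d → ℝ))

theorem affEq_equivalence (d : ℕ) : Equivalence (AffEq (d := d)) where
  refl A := ⟨AffineEquiv.refl ℝ _, by simp⟩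
  symm := by
    rintro A B ⟨T, hT⟩
    refine ⟨T.symm, ?_⟩
    rw [← hT, Set.image_image]
    simp
  trans := by
    rintro A B C ⟨T, hT⟩ ⟨T', hT'⟩
    refine ⟨T.trans T', ?_⟩
    rw [← hT', ← hT, Set.image_image]
    rfl

/-- The equivalence relation of affine equivalence on the finite subsets of `ℝ^d`. -/
def affSetoid (d : ℕ) : Setoid (Finset (Fin d → ℝ)) := ⟨AffEq, affEq_equivalence d⟩

/-- `c_k(P)`: the number of affine equivalence classes that contain a `k`-element subset of `P`. -/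
noncomputable def classCount {d : ℕ} (k : ℕ) (P : Finset (Fin d → ℝ)) : ℕ :=
  Set.ncard {C : Quotient (affSetoid d) | ∃ A ∈ P.powersetCard k, Quotient.mk (affSetoid d) A = C}

/-- `f_d(k,n)`: the minimum of `c_k(P)` over all `n`-element subsets `P` of `ℝ^d`. -/
noncomputable def f (d k n : ℕ) : ℕ :=
  sInf {c | ∃ P : Finset (Fin d → ℝ), P.card = n ∧ classCount k P = c}

theorem exists_points (d n : ℕ) (hd : 1 ≤ d) : ∃ P : Finset (Fin d → ℝ), P.card = n := by
  have : Nonempty (Fin d) := ⟨⟨0, hd⟩⟩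
  obtain ⟨s, hs⟩ := Infinite.exists_subset_card_eq (Fin d → ℝ) n
  exact ⟨s, hs⟩

theorem classSet_eq {d : ℕ} (k : ℕ) (P : Finset (Fin d → ℝ)) :
    {C : Quotient (affSetoid d) | ∃ A ∈ P.powersetCard k, Quotient.mk (affSetoid d) A = C} =
      (fun A => Quotient.mk (affSetoid d) A) '' (P.powersetCard k : Set (Finset (Fin d → ℝ))) := by
  ext C; simp

theorem classSet_finite {d : ℕ} (k : ℕ) (P : Finset (Fin d → ℝ)) :
    {C : Quotient (affSetoid d) | ∃ A ∈ P.powersetCard k,
      Quotient.mk (affSetoid d) A = C}.Finite := by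
  rw [classSet_eq]
  exact (Finset.finite_toSet _).image _

theorem classCount_mono {d k : ℕ} {P Q : Finset (Fin d → ℝ)} (h : P ⊆ Q) :
    classCount k P ≤ classCount k Q := by
  apply Set.ncard_le_ncard _ (classSet_finite k Q)
  rintro C ⟨A, hA, rfl⟩
  exact ⟨A, powersetCard_mono h hA, rfl⟩

theorem f_le {d k n : ℕ} {P : Finset (Fin d → ℝ)} (h : n ≤ P.card) : f d k n ≤ classCount k P := by
  obtain ⟨Q, hQ, hQn⟩ := exists_subset_card_eq h
  have h1 : f d k n ≤ classCount k Q := Nat.sInf_le ⟨Q, hQn, rfl⟩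
  exact h1.trans (classCount_mono hQ)

theorem f_attained {d : ℕ} (k n : ℕ) (hd : 1 ≤ d) :
    ∃ P : Finset (Fin d → ℝ), P.card = n ∧ classCount k P = f d k n := by
  obtain ⟨P, hP⟩ := exists_points d n hd
  have hne : {c | ∃ P : Finset (Fin d → ℝ), P.card = n ∧ classCount k P = c}.Nonempty :=
    ⟨_, P, hP, rfl⟩
  exact Nat.sInf_mem hne

section linear

theorem exists_linear {V E : Type} [AddCommGroup V] [Module ℝ V] [AddCommGroup E] [Module ℝ E]
    [FiniteDimensional ℝ E] (φ ψ : V →ₗ[ℝ] E) (h : LinearMap.ker φ = LinearMap.ker ψ) :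
    ∃ G : E ≃ₗ[ℝ] E, ∀ v, G (φ v) = ψ v := by
  let e : LinearMap.range φ ≃ₗ[ℝ] LinearMap.range ψ :=
    (φ.quotKerEquivRange.symm.trans (Submodule.quotEquivOfEq _ _ h)).trans ψ.quotKerEquivRange
  have he : ∀ v, (e ⟨φ v, LinearMap.mem_range_self φ v⟩ : E) = ψ v := by
    intro v
    have h1 : φ.quotKerEquivRange.symm ⟨φ v, LinearMap.mem_range_self φ v⟩ =
        Submodule.Quotient.mk v := by
      rw [LinearEquiv.symm_apply_eq]
      rfl
    simp only [e, LinearEquiv.trans_apply, h1]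
    rfl
  obtain ⟨W, hW⟩ := Submodule.exists_isCompl (LinearMap.range φ)
  obtain ⟨W', hW'⟩ := Submodule.exists_isCompl (LinearMap.range ψ)
  have hfr : Module.finrank ℝ W = Module.finrank ℝ W' := by
    have h1 := Submodule.finrank_add_eq_of_isCompl hW
    have h2 := Submodule.finrank_add_eq_of_isCompl hW'
    have h3 := e.finrank_eq
    omega
  let g : W ≃ₗ[ℝ] W' := LinearEquiv.ofFinrankEq _ _ hfr
  refine ⟨((LinearMap.range φ).prodEquivOfIsCompl W hW).symm.trans
    ((e.prodCongr g).trans ((LinearMap.range ψ).prodEquivOfIsCompl W' hW')), ?_⟩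
  intro v
  have h1 : ((LinearMap.range φ).prodEquivOfIsCompl W hW).symm (φ v) =
      (⟨φ v, LinearMap.mem_range_self φ v⟩, 0) := by
    rw [LinearEquiv.symm_apply_eq]
    simp
  simp only [LinearEquiv.trans_apply, h1]
  simp [he]

variable {d k : ℕ}

/-- The span of the constant vector and the coordinate functions of a `k`-tuple of points. -/
def R (p : Fin k → Fin d → ℝ) : Submodule ℝ (Fin k → ℝ) :=
  Submodule.span ℝ ({fun _ => 1} ∪ Set.range (fun j => fun i => p i j))

theorem dep_of_R {p p' : Fin k → Fin d → ℝ} (h : R p = R p') (c : Fin k → ℝ) (h0 : ∑ i, c i = 0)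
    (h1 : ∑ i, c i • p i = 0) : ∑ i, c i • p' i = 0 := by
  have key : ∀ w ∈ R p, ∑ i, c i * w i = 0 := by
    intro w hw
    unfold R at hw
    induction hw using Submodule.span_induction with
    | mem x hx =>
      rcases hx with hx | ⟨j, rfl⟩
      · rw [Set.mem_singleton_iff] at hx
        subst hx
        simpa using h0
      · have := congrFun h1 j
        simpa using this
    | zero => simp
    | add x y _ _ hx hy =>
      simp only [Pi.add_apply, mul_add, sum_add_distrib, hx, hy, add_zero]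
    | smul a x _ hx =>
      have e : ∀ i, c i * (a • x) i = a * (c i * x i) := by
        intro i; simp only [Pi.smul_apply, smul_eq_mul]; ring
      simp only [e, ← mul_sum, hx, mul_zero]
  ext j
  have h2 : (fun i => p' i j) ∈ R p := by
    rw [h]
    exact Submodule.subset_span (Or.inr ⟨j, rfl⟩)
  have := key _ h2
  simpa using this

theorem exists_affine {m : ℕ} {p p' : Fin (m + 1) → Fin d → ℝ} (h : R p = R p') :
    ∃ T : (Fin d → ℝ) ≃ᵃ[ℝ] (Fin d → ℝ), ∀ i, T (p i) = p' i := by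
  let φ : (Fin (m + 1) → ℝ) →ₗ[ℝ] (Fin d → ℝ) := ∑ i, (LinearMap.proj i).smulRight (p i - p 0)
  let ψ : (Fin (m + 1) → ℝ) →ₗ[ℝ] (Fin d → ℝ) := ∑ i, (LinearMap.proj i).smulRight (p' i - p' 0)
  have hφ : ∀ c, φ c = ∑ i, c i • (p i - p 0) := by intro c; simp [φ]
  have hψ : ∀ c, ψ c = ∑ i, c i • (p' i - p' 0) := by intro c; simp [ψ]
  -- rewriting of dependencies
  have hdep : ∀ (q : Fin (m + 1) → Fin d → ℝ) (c : Fin (m + 1) → ℝ),
      ∑ i, ((c - Pi.single 0 (∑ i, c i) : Fin (m + 1) → ℝ)) i • q i = ∑ i, c i • (q i - q 0) := by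
    intro q c
    simp only [Pi.sub_apply, sub_smul, smul_sub, sum_sub_distrib]
    congr 1
    rw [← sum_smul]
    rw [sum_eq_single (0 : Fin (m + 1))]
    · simp
    · intro i _ hi; simp [Pi.single_apply, hi]
    · simp
  have hsum : ∀ c : Fin (m + 1) → ℝ, ∑ i, ((c - Pi.single 0 (∑ i, c i) : Fin (m + 1) → ℝ)) i = 0 := by
    intro c
    simp [Pi.sub_apply, sum_sub_distrib]
  have hker : LinearMap.ker φ = LinearMap.ker ψ := by
    ext c
    rw [LinearMap.mem_ker, LinearMap.mem_ker, hφ, hψ, ← hdep, ← hdep]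
    exact ⟨dep_of_R h _ (hsum c), dep_of_R h.symm _ (hsum c)⟩
  obtain ⟨G, hG⟩ := exists_linear φ ψ hker
  refine ⟨((AffineEquiv.vaddConst ℝ (p 0)).symm.trans G.toAffineEquiv).trans
    (AffineEquiv.vaddConst ℝ (p' 0)), ?_⟩
  intro i
  have h1 : φ (Pi.single i 1) = p i - p 0 := by
    rw [hφ, sum_eq_single i]
    · simp
    · intro j _ hj; simp [Pi.single_apply, hj]
    · simp
  have h2 : ψ (Pi.single i 1) = p' i - p' 0 := by
    rw [hψ, sum_eq_single i]
    · simp
    · intro j _ hj; simp [Pi.single_apply, hj]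
    · simp
  have h3 := hG (Pi.single i 1)
  rw [h1, h2] at h3
  simp [h3]

end linear

section cosets

variable {k : ℕ}

/-- The vectors of `B` and the constant vector are linearly independent (over the integers). -/
def Ind (B : Finset (Fin k → ℤ)) : Prop :=
  ∀ (t : ℤ) (a : (Fin k → ℤ) → ℤ), (∀ i, t + ∑ z ∈ B, a z * z i = 0) → t = 0 ∧ ∀ z ∈ B, a z = 0

theorem exists_ind (hk : 1 ≤ k) (S : Finset (Fin k → ℤ)) :
    ∃ B ⊆ S, Ind B ∧ ∀ z ∈ S, (fun i => (z i : ℝ)) ∈
      Submodule.span ℝ ({fun _ => 1} ∪ (fun (z : Fin k → ℤ) (i : Fin k) => (z i : ℝ)) '' B) := by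
  classical
  have h0 : (S.powerset.filter (fun B => Ind B)).Nonempty := by
    refine ⟨∅, ?_⟩
    rw [mem_filter, mem_powerset]
    refine ⟨empty_subset _, ?_⟩
    intro t a h
    have := h ⟨0, hk⟩
    simp at this
    exact ⟨this, by simp⟩
  obtain ⟨B, hB, hmax⟩ := exists_max_image _ (fun B => B.card) h0
  rw [mem_filter, mem_powerset] at hB
  refine ⟨B, hB.1, hB.2, ?_⟩
  intro z hz
  by_cases hzB : z ∈ B
  · exact Submodule.subset_span (Or.inr ⟨z, hzB, rfl⟩)
  · have hnot : ¬ Ind (insert z B) := by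
      intro hI
      have := hmax (insert z B) (by
        rw [mem_filter, mem_powerset]
        exact ⟨insert_subset hz hB.1, hI⟩)
      rw [card_insert_of_notMem hzB] at this
      omega
    unfold Ind at hnot
    push Not at hnot
    obtain ⟨t, a, hrel, hne⟩ := hnot
    have hrel' : ∀ i, t + (a z * z i + ∑ z' ∈ B, a z' * z' i) = 0 := by
      intro i
      have := hrel i
      rwa [sum_insert hzB] at this
    have haz : a z ≠ 0 := by
      intro h0
      have h1 : ∀ i, t + ∑ z' ∈ B, a z' * z' i = 0 := by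
        intro i
        have := hrel' i
        rw [h0, zero_mul, zero_add] at this
        exact this
      obtain ⟨ht, ha⟩ := hB.2 t a h1
      obtain ⟨z', hz', hz'0⟩ := hne ht
      rw [mem_insert] at hz'
      rcases hz' with rfl | hz'
      · exact hz'0 h0
      · exact hz'0 (ha z' hz')
    have haz' : (a z : ℝ) ≠ 0 := by exact_mod_cast haz
    set W := Submodule.span ℝ ({fun _ => 1} ∪
      (fun (z : Fin k → ℤ) (i : Fin k) => (z i : ℝ)) '' (B : Set (Fin k → ℤ))) with hW
    have hmem : (a z : ℝ) • (fun i => (z i : ℝ)) ∈ W := by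
      have e : (a z : ℝ) • (fun i => (z i : ℝ)) =
          (-(t : ℝ)) • (fun _ : Fin k => (1 : ℝ)) -
            ∑ z' ∈ B, (a z' : ℝ) • (fun i => (z' i : ℝ)) := by
        ext i
        have := hrel' i
        have h2 : (t : ℝ) + ((a z : ℝ) * z i + ∑ z' ∈ B, (a z' : ℝ) * z' i) = 0 := by
          exact_mod_cast this
        simp only [Pi.smul_apply, smul_eq_mul, Pi.sub_apply, Finset.sum_apply]
        linarith
      rw [e]
      apply Submodule.sub_mem
      · exact Submodule.smul_mem _ _ (Submodule.subset_span (Or.inl rfl))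
      · exact Submodule.sum_mem _ fun z' hz' =>
          Submodule.smul_mem _ _ (Submodule.subset_span (Or.inr ⟨z', hz', rfl⟩))
    have := Submodule.smul_mem W ((a z : ℝ)⁻¹) hmem
    rwa [smul_smul, inv_mul_cancel₀ haz', one_smul] at this

theorem coset_bound {γ : Type} [DecidableEq γ] (B : Finset (Fin k → ℤ)) (hB : Ind B)
    (M K L : ℕ) (hM : 1 ≤ M) (hKL : K * L ≤ M) (hBL : ∀ z ∈ B, ∀ i, |z i| ≤ L)
    (X : Finset (Fin k → ℤ)) (hX : ∀ x ∈ X, ∀ i, 0 ≤ x i ∧ x i < M) (g : (Fin k → ℤ) → γ)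
    (hg : ∀ x ∈ X, ∀ x' ∈ X, ∀ (t : ℤ) (a : (Fin k → ℤ) → ℤ),
      (∀ i, x i = x' i + t + ∑ z ∈ B, a z * z i) → g x = g x') :
    (X.image g).card * (M * K ^ B.card) ≤ ((2 * B.card + 3) * M) ^ k := by
  classical
  set r := B.card with hr
  have hrep : ∀ v : γ, ∃ x : Fin k → ℤ, v ∈ X.image g → x ∈ X ∧ g x = v := by
    intro v
    by_cases h : v ∈ X.image g
    · obtain ⟨x, hx, hxv⟩ := mem_image.1 h
      exact ⟨x, fun _ => ⟨hx, hxv⟩⟩
    · exact ⟨0, fun h' => absurd h' h⟩
  choose rep hrep using hrep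
  let D : Finset (γ × ℕ × (B → ℕ)) :=
    (X.image g) ×ˢ (range M) ×ˢ (Fintype.piFinset (fun _ : B => range K))
  have hD : D.card = (X.image g).card * (M * K ^ r) := by
    simp only [D, card_product, card_range, Fintype.card_piFinset, prod_const, card_univ,
      Fintype.card_coe, hr]
  let F : γ × ℕ × (B → ℕ) → (Fin k → ℤ) :=
    fun q i => rep q.1 i + (q.2.1 : ℤ) + ∑ z : B, (q.2.2 z : ℤ) * z.1 i
  let box : Finset (Fin k → ℤ) :=
    Fintype.piFinset (fun _ : Fin k => Finset.Icc (-((r * M : ℕ) : ℤ)) (((r + 2) * M : ℕ) : ℤ))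
  have hbox : box.card ≤ ((2 * r + 3) * M) ^ k := by
    simp only [box, Fintype.card_piFinset, prod_const, card_univ, Int.card_Icc, Fintype.card_fin]
    apply Nat.pow_le_pow_left
    push_cast
    have : ((((r : ℤ) + 2) * M + 1 - -((r : ℤ) * M))).toNat = (2 * r + 2) * M + 1 := by
      have e : (((r : ℤ) + 2) * M + 1 - -((r : ℤ) * M)) = (((2 * r + 2) * M + 1 : ℕ) : ℤ) := by
        push_cast; ring
      rw [e, Int.toNat_natCast]
    rw [this]
    nlinarith
  rw [← hD]
  refine le_trans ?_ hbox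
  apply card_le_card_of_injOn F
  · rintro ⟨v, t, a⟩ hq
    simp only [D, coe_product, Set.mem_prod, mem_coe, mem_range, Fintype.mem_piFinset] at hq
    obtain ⟨hv, ht, ha⟩ := hq
    rw [mem_coe, Fintype.mem_piFinset]
    intro i
    rw [mem_Icc]
    have hx := hX _ (hrep v hv).1 i
    have hsum : |∑ z : B, (a z : ℤ) * z.1 i| ≤ r * M := by
      calc |∑ z : B, (a z : ℤ) * z.1 i| ≤ ∑ z : B, |(a z : ℤ) * z.1 i| := abs_sum_le_sum_abs _ _
        _ ≤ ∑ z : B, (M : ℤ) := by
          refine sum_le_sum fun z _ => ?_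
          rw [abs_mul, Nat.abs_cast]
          have h1 := hBL z.1 z.2 i
          have h2 : (a z : ℤ) ≤ K := by exact_mod_cast (ha z).le
          calc (a z : ℤ) * |z.1 i| ≤ K * L :=
                mul_le_mul h2 h1 (abs_nonneg _) (by positivity)
            _ ≤ M := by exact_mod_cast hKL
        _ = r * M := by simp [hr]
    rw [abs_le] at hsum
    have ht' : (t : ℤ) < M := by exact_mod_cast ht
    simp only [F]
    push_cast
    constructor
    · nlinarith [hsum.1, hx.1]
    · nlinarith [hsum.2, hx.2]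
  · rintro ⟨v, t, a⟩ hq ⟨v', t', a'⟩ hq' hF
    simp only [D, coe_product, Set.mem_prod, mem_coe, mem_range, Fintype.mem_piFinset] at hq hq'
    obtain ⟨hv, ht, ha⟩ := hq
    obtain ⟨hv', ht', ha'⟩ := hq'
    have hF' : ∀ i, rep v i + (t : ℤ) + ∑ z : B, (a z : ℤ) * z.1 i =
        rep v' i + (t' : ℤ) + ∑ z : B, (a' z : ℤ) * z.1 i := fun i => congrFun hF i
    let c : (Fin k → ℤ) → ℤ := fun z => if h : z ∈ B then (a' ⟨z, h⟩ : ℤ) - a ⟨z, h⟩ else 0
    have hc : ∀ i, ∑ z ∈ B, c z * z i =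
        ∑ z : B, (a' z : ℤ) * z.1 i - ∑ z : B, (a z : ℤ) * z.1 i := by
      intro i
      rw [← sum_coe_sort B (fun z => c z * z i), ← sum_sub_distrib]
      refine sum_congr rfl fun z _ => ?_
      simp only [c, z.2, dif_pos]
      ring
    have hgg : g (rep v) = g (rep v') := by
      refine hg _ (hrep v hv).1 _ (hrep v' hv').1 ((t' : ℤ) - t) c fun i => ?_
      rw [hc i]
      have := hF' i
      linarith
    rw [(hrep v hv).2, (hrep v' hv').2] at hgg
    subst hgg
    obtain ⟨h1, h2⟩ := hB ((t' : ℤ) - t) c (fun i => by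
      rw [hc i]
      have := hF' i
      linarith)
    have ht3 : t = t' := by omega
    subst ht3
    have ha3 : a = a' := by
      funext z
      have := h2 z.1 z.2
      simp only [c, z.2, dif_pos] at this
      have h4 : (a' z : ℤ) - a z = 0 := this
      omega
    subst ha3
    rfl

end cosets

section grid

/-- a vector of natural numbers as a real vector -/
def cst {e : ℕ} (v : Fin e → ℕ) : Fin e → ℝ := fun j => (v j : ℝ)

theorem cst_injective {e : ℕ} : Function.Injective (cst (e := e)) := by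
  intro v w h
  funext j
  have := congrFun h j
  unfold cst at this
  exact_mod_cast this

/-- an integer vector as a real vector -/
def castv {k : ℕ} (z : Fin k → ℤ) : Fin k → ℝ := fun i => (z i : ℝ)

/-- the box `[M] × [L]^e` -/
def ibox (e M L : ℕ) : Finset (Fin (e + 1) → ℕ) :=
  Fintype.piFinset (fun j : Fin (e + 1) => Finset.range (if j = 0 then M else L))

/-- the grid `[M] × [L]^e` in `ℝ^(e+1)` -/
noncomputable def grid (e M L : ℕ) : Finset (Fin (e + 1) → ℝ) := (ibox e M L).image cst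

theorem card_grid (e M L : ℕ) : (grid e M L).card = M * L ^ e := by
  rw [grid, card_image_of_injective _ cst_injective, ibox, Fintype.card_piFinset,
    Fin.prod_univ_succ]
  simp

variable {m : ℕ}

/-- the span of the constant vector and the vectors of `B` -/
def Wsp (B : Finset (Fin (m + 1) → ℤ)) : Submodule ℝ (Fin (m + 1) → ℝ) :=
  Submodule.span ℝ ({fun _ => 1} ∪ (fun (z : Fin (m + 1) → ℤ) (i : Fin (m + 1)) => (z i : ℝ)) '' B)

def gB (B : Finset (Fin (m + 1) → ℤ)) (x : Fin (m + 1) → ℤ) : Submodule ℝ (Fin (m + 1) → ℝ) :=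
  Wsp B ⊔ Submodule.span ℝ {castv x}

theorem gB_le {B : Finset (Fin (m + 1) → ℤ)} {x x' : Fin (m + 1) → ℤ} (t : ℤ)
    (a : (Fin (m + 1) → ℤ) → ℤ) (h : ∀ i, x i = x' i + t + ∑ z ∈ B, a z * z i) :
    gB B x ≤ gB B x' := by
  unfold gB
  apply sup_le le_sup_left
  rw [Submodule.span_singleton_le_iff_mem]
  have e : castv x = ((t : ℝ) • (fun _ : Fin (m + 1) => (1 : ℝ)) +
      ∑ z ∈ B, (a z : ℝ) • (fun i => (z i : ℝ))) + castv x' := by
    ext i
    have h2 : (x i : ℝ) = x' i + t + ∑ z ∈ B, (a z : ℝ) * z i := by exact_mod_cast h i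
    simp only [castv, Pi.add_apply, Pi.smul_apply, smul_eq_mul, Finset.sum_apply, h2]
    ring
  rw [e]
  apply Submodule.add_mem
  · apply Submodule.mem_sup_left
    apply Submodule.add_mem
    · exact Submodule.smul_mem _ _ (Submodule.subset_span (Or.inl rfl))
    · exact Submodule.sum_mem _ fun z hz =>
        Submodule.smul_mem _ _ (Submodule.subset_span (Or.inr ⟨z, hz, rfl⟩))
  · exact Submodule.mem_sup_right (Submodule.mem_span_singleton_self _)

theorem gB_eq {B : Finset (Fin (m + 1) → ℤ)} {x x' : Fin (m + 1) → ℤ} (t : ℤ)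
    (a : (Fin (m + 1) → ℤ) → ℤ) (h : ∀ i, x i = x' i + t + ∑ z ∈ B, a z * z i) :
    gB B x = gB B x' := by
  apply le_antisymm (gB_le t a h)
  apply gB_le (-t) (fun z => - a z)
  intro i
  have := h i
  simp only [neg_mul, sum_neg_distrib]
  linarith

/-- the normalised vectors of `y`-coordinates -/
noncomputable def Zset (m L : ℕ) : Finset (Fin (m + 1) → ℤ) :=
  Fintype.piFinset (fun i : Fin (m + 1) => if i = 0 then {0} else Finset.Ioo (-(L : ℤ)) L)

theorem card_Zset_le (m L : ℕ) : (Zset m L).card ≤ (2 * L) ^ m := by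
  rw [Zset, Fintype.card_piFinset, Fin.prod_univ_succ]
  simp only [if_true, card_singleton, one_mul, Fin.succ_ne_zero, if_false, Int.card_Ioo,
    prod_const, card_univ, Fintype.card_fin]
  apply Nat.pow_le_pow_left
  omega

/-- vectors of `x`-coordinates -/
noncomputable def Xset (m M : ℕ) : Finset (Fin (m + 1) → ℤ) :=
  Fintype.piFinset (fun _ : Fin (m + 1) => (Finset.range M).map Nat.castEmbedding)

theorem mem_Xset {m M : ℕ} {x : Fin (m + 1) → ℤ} :
    x ∈ Xset m M ↔ ∀ i, ∃ n : ℕ, n < M ∧ (n : ℤ) = x i := by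
  simp [Xset, Fintype.mem_piFinset]

open Classical in
/-- all subspaces that occur -/
noncomputable def family (m e M L : ℕ) : Finset (Submodule ℝ (Fin (m + 1) → ℝ)) :=
  (range (e + 1)).biUnion (fun r => (((Zset m L).powersetCard r).filter (fun B => Ind B)).biUnion
    (fun B => (Xset m M).image (gB B)))

theorem R_mem_family (e M L : ℕ) (p : Fin (m + 1) → Fin (e + 1) → ℕ)
    (hp : ∀ i, p i ∈ ibox e M L) : R (fun i => cst (p i)) ∈ family m e M L := by
  classical
  have hb : ∀ i j, p i j < if j = 0 then M else L := by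
    intro i j
    have := hp i
    rw [ibox, Fintype.mem_piFinset] at this
    simpa using this j
  let S : Finset (Fin (m + 1) → ℤ) :=
    univ.image (fun j : Fin e => fun i => (p i j.succ : ℤ) - p 0 j.succ)
  obtain ⟨B, hBS, hInd, hspan⟩ := exists_ind (by omega : 1 ≤ m + 1) S
  have hSZ : S ⊆ Zset m L := by
    intro z hz
    simp only [S, mem_image, mem_univ, true_and] at hz
    obtain ⟨j, rfl⟩ := hz
    rw [Zset, Fintype.mem_piFinset]
    intro i
    by_cases hi : i = 0
    · simp [hi]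
    · rw [if_neg hi, mem_Ioo]
      have h1 := hb i j.succ
      have h2 := hb 0 j.succ
      rw [if_neg (Fin.succ_ne_zero j)] at h1 h2
      omega
  have hcard : B.card ≤ e := by
    calc B.card ≤ S.card := card_le_card hBS
      _ ≤ (univ : Finset (Fin e)).card := card_image_le
      _ = e := by simp
  let x : Fin (m + 1) → ℤ := fun i => (p i 0 : ℤ)
  have hx : x ∈ Xset m M := by
    rw [mem_Xset]
    intro i
    have := hb i 0
    rw [if_pos rfl] at this
    exact ⟨p i 0, this, rfl⟩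
  have hR : R (fun i => cst (p i)) = gB B x := by
    apply le_antisymm
    · unfold R
      rw [Submodule.span_le]
      rintro w (hw | ⟨j, rfl⟩)
      · rw [Set.mem_singleton_iff] at hw
        subst hw
        exact Submodule.mem_sup_left (Submodule.subset_span (Or.inl rfl))
      · refine Fin.cases ?_ (fun j => ?_) j
        · exact Submodule.mem_sup_right (Submodule.mem_span_singleton_self (castv x))
        · apply Submodule.mem_sup_left
          have h1 := hspan (fun i => (p i j.succ : ℤ) - p 0 j.succ)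
            (mem_image.2 ⟨j, mem_univ _, rfl⟩)
          have e1 : (fun i => cst (p i) j.succ) =
              (fun i => (((p i j.succ : ℤ) - p 0 j.succ : ℤ) : ℝ)) +
                (p 0 j.succ : ℝ) • (fun _ : Fin (m + 1) => (1 : ℝ)) := by
            ext i
            simp [cst]
          change (fun i => cst (p i) j.succ) ∈ Wsp B
          rw [e1]
          exact Submodule.add_mem _ h1
            (Submodule.smul_mem _ _ (Submodule.subset_span (Or.inl rfl)))
    · unfold gB Wsp
      rw [sup_le_iff, Submodule.span_le, Submodule.span_singleton_le_iff_mem]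
      have hone : (fun _ : Fin (m + 1) => (1 : ℝ)) ∈ R (fun i => cst (p i)) :=
        Submodule.subset_span (Or.inl rfl)
      constructor
      · rintro w (hw | ⟨z, hz, rfl⟩)
        · rw [Set.mem_singleton_iff] at hw
          subst hw
          exact hone
        · have hz' := hBS hz
          simp only [S, mem_image, mem_univ, true_and] at hz'
          obtain ⟨j, rfl⟩ := hz'
          have e1 : (fun i => (((p i j.succ : ℤ) - p 0 j.succ : ℤ) : ℝ)) =
              (fun i => cst (p i) j.succ) -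
                (p 0 j.succ : ℝ) • (fun _ : Fin (m + 1) => (1 : ℝ)) := by
            ext i
            simp [cst]
          change (fun i => (((p i j.succ : ℤ) - p 0 j.succ : ℤ) : ℝ)) ∈ R (fun i => cst (p i))
          rw [e1]
          exact Submodule.sub_mem _ (Submodule.subset_span (Or.inr ⟨j.succ, rfl⟩))
            (Submodule.smul_mem _ _ hone)
      · exact Submodule.subset_span (Or.inr ⟨0, rfl⟩)
  rw [hR, family, mem_biUnion]
  refine ⟨B.card, mem_range.2 (by omega), ?_⟩
  rw [mem_biUnion]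
  refine ⟨B, mem_filter.2 ⟨mem_powersetCard.2 ⟨hBS.trans hSZ, rfl⟩, hInd⟩, ?_⟩
  exact mem_image_of_mem _ hx

theorem card_family_le (m e L : ℕ) (hL : 1 ≤ L) :
    (family m e (L ^ (m + 1)) L).card ≤
      (e + 1) * (2 ^ (m * e) * (2 * e + 3) ^ (m + 1) * L ^ ((m + 1) * m)) := by
  classical
  set M := L ^ (m + 1) with hM
  have hM1 : 1 ≤ M := Nat.one_le_pow _ _ hL
  have hstep : ∀ r ∈ range (e + 1),
      ((((Zset m L).powersetCard r).filter (fun B => Ind B)).biUnion
        (fun B => (Xset m M).image (gB B))).card ≤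
      2 ^ (m * e) * (2 * e + 3) ^ (m + 1) * L ^ ((m + 1) * m) := by
    intro r hr
    rw [mem_range] at hr
    set Q := (2 * r + 3) ^ (m + 1) * L ^ ((m + 1) * m) with hQ
    have hG : ∀ B ∈ ((Zset m L).powersetCard r).filter (fun B => Ind B),
        ((Xset m M).image (gB B)).card * L ^ (m * r) ≤ Q := by
      intro B hB
      rw [mem_filter, mem_powersetCard] at hB
      have h1 := coset_bound B hB.2 M (L ^ m) L hM1 (by rw [hM, pow_succ]) (by
        intro z hz i
        have := hB.1.1 hz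
        rw [Zset, Fintype.mem_piFinset] at this
        have h2 := this i
        by_cases hi : i = 0
        · rw [if_pos hi, mem_singleton] at h2
          rw [h2]; simp
        · rw [if_neg hi, mem_Ioo] at h2
          rw [abs_le]; constructor <;> linarith [h2.1, h2.2]) (Xset m M) (by
        intro x hx i
        rw [mem_Xset] at hx
        obtain ⟨n, hn, hnx⟩ := hx i
        rw [← hnx]
        exact ⟨by positivity, by exact_mod_cast hn⟩) (gB B) (fun x _ x' _ t a h => gB_eq t a h)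
      rw [hB.1.2] at h1
      have e1 : M * (L ^ m) ^ r = L ^ (m * r) * L ^ (m + 1) := by
        rw [hM, ← pow_mul, mul_comm]
      have e2 : ((2 * r + 3) * M) ^ (m + 1) = Q * L ^ (m + 1) := by
        rw [hQ, hM, mul_pow, ← pow_mul, mul_assoc, ← pow_add]
        congr 2
      rw [e1, e2, ← mul_assoc] at h1
      exact Nat.le_of_mul_le_mul_right h1 (by positivity)
    have hcB : (((Zset m L).powersetCard r).filter (fun B => Ind B)).card ≤
        2 ^ (m * r) * L ^ (m * r) := by
      calc _ ≤ ((Zset m L).powersetCard r).card := card_filter_le _ _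
        _ = (Zset m L).card.choose r := card_powersetCard _ _
        _ ≤ (Zset m L).card ^ r := Nat.choose_le_pow _ _
        _ ≤ ((2 * L) ^ m) ^ r := Nat.pow_le_pow_left (card_Zset_le m L) _
        _ = 2 ^ (m * r) * L ^ (m * r) := by rw [← pow_mul, mul_pow]
    have h2 : ((((Zset m L).powersetCard r).filter (fun B => Ind B)).biUnion
        (fun B => (Xset m M).image (gB B))).card * L ^ (m * r) ≤
        (2 ^ (m * r) * Q) * L ^ (m * r) := by
      calc _ ≤ (∑ B ∈ ((Zset m L).powersetCard r).filter (fun B => Ind B),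
            ((Xset m M).image (gB B)).card) * L ^ (m * r) :=
            Nat.mul_le_mul_right _ card_biUnion_le
        _ = ∑ B ∈ ((Zset m L).powersetCard r).filter (fun B => Ind B),
            ((Xset m M).image (gB B)).card * L ^ (m * r) := sum_mul _ _ _
        _ ≤ ∑ B ∈ ((Zset m L).powersetCard r).filter (fun B => Ind B), Q := sum_le_sum hG
        _ = (((Zset m L).powersetCard r).filter (fun B => Ind B)).card * Q := by
            rw [sum_const, smul_eq_mul]
        _ ≤ (2 ^ (m * r) * L ^ (m * r)) * Q := Nat.mul_le_mul_right _ hcB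
        _ = _ := by ring
    have h3 := Nat.le_of_mul_le_mul_right h2 (by positivity)
    refine h3.trans ?_
    rw [hQ, ← mul_assoc]
    apply Nat.mul_le_mul_right
    apply Nat.mul_le_mul
    · exact Nat.pow_le_pow_right (by norm_num) (Nat.mul_le_mul_left _ (by omega))
    · exact Nat.pow_le_pow_left (by omega) _
  calc _ ≤ ∑ r ∈ range (e + 1), _ := card_biUnion_le
    _ ≤ ∑ r ∈ range (e + 1), 2 ^ (m * e) * (2 * e + 3) ^ (m + 1) * L ^ ((m + 1) * m) :=
        sum_le_sum hstep
    _ = _ := by rw [sum_const, card_range, smul_eq_mul]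

theorem grid_count (m e L : ℕ) (hL : 1 ≤ L) :
    classCount (m + 1) (grid e (L ^ (m + 1)) L) ≤
      (e + 1) * (2 ^ (m * e) * (2 * e + 3) ^ (m + 1) * L ^ ((m + 1) * m)) := by
  classical
  refine le_trans ?_ (card_family_le m e L hL)
  set M := L ^ (m + 1)
  -- choose an enumeration of every subset
  have hA : ∀ A ∈ (grid e M L).powersetCard (m + 1), ∃ p : Fin (m + 1) → Fin (e + 1) → ℕ,
      (∀ i, p i ∈ ibox e M L) ∧ univ.image (fun i => cst (p i)) = A := by
    intro A hA
    rw [mem_powersetCard] at hA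
    let eq := A.equivFinOfCardEq hA.2
    have h1 : ∀ i, ∃ v ∈ ibox e M L, cst v = (eq.symm i).1 := by
      intro i
      have := hA.1 (eq.symm i).2
      rw [grid, mem_image] at this
      exact this
    choose p hp1 hp2 using h1
    refine ⟨p, hp1, ?_⟩
    ext v
    rw [mem_image]
    constructor
    · rintro ⟨i, -, rfl⟩
      rw [hp2]; exact (eq.symm i).2
    · intro hv
      refine ⟨eq ⟨v, hv⟩, mem_univ _, ?_⟩
      rw [hp2, Equiv.symm_apply_apply]
  choose! p hp1 hp2 using hA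
  -- the classes inject into the family
  set Cl := {C : Quotient (affSetoid (e + 1)) |
    ∃ A ∈ (grid e M L).powersetCard (m + 1), Quotient.mk (affSetoid (e + 1)) A = C} with hCl
  have hex : ∀ C : Quotient (affSetoid (e + 1)), ∃ A : Finset (Fin (e + 1) → ℝ), C ∈ Cl →
      A ∈ (grid e M L).powersetCard (m + 1) ∧ Quotient.mk (affSetoid (e + 1)) A = C := by
    intro C
    by_cases h : C ∈ Cl
    · obtain ⟨A, h1, h2⟩ := h
      exact ⟨A, fun _ => ⟨h1, h2⟩⟩
    · exact ⟨∅, fun h' => absurd h' h⟩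
  choose rep hrep using hex
  have hle : Cl.ncard ≤
      ((family m e M L : Finset (Submodule ℝ (Fin (m + 1) → ℝ))) :
        Set (Submodule ℝ (Fin (m + 1) → ℝ))).ncard := by
    apply Set.ncard_le_ncard_of_injOn (fun C => R (fun i => cst (p (rep C) i)))
    · intro C hC
      exact R_mem_family e M L _ (hp1 _ (hrep C hC).1)
    · intro C hC C' hC' h
      obtain ⟨T, hT⟩ := exists_affine h
      rw [← (hrep C hC).2, ← (hrep C' hC').2]
      apply Quotient.sound
      refine ⟨T, ?_⟩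
      rw [← hp2 _ (hrep C hC).1, ← hp2 _ (hrep C' hC').1]
      ext v
      simp only [coe_image, coe_univ, Set.image_univ, Set.mem_image, Set.mem_range]
      constructor
      · rintro ⟨w, ⟨i, rfl⟩, rfl⟩
        exact ⟨i, (hT i).symm⟩
      · rintro ⟨i, rfl⟩
        exact ⟨_, ⟨i, rfl⟩, hT i⟩
  rw [Set.ncard_coe_finset] at hle
  exact hle

/-- The upper bound `f_d(k,n) ≤ C n^(k(k-1)/(k+d-1))`, with `d = e + 1`, `k = m + 1`. -/
theorem f_upper (e m n : ℕ) (hn : 1 ≤ n) :
    (f (e + 1) (m + 1) n : ℝ) ≤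
      ((e + 1) * (2 ^ (m * e) * (2 * e + 3) ^ (m + 1)) * 2 ^ ((m + 1) * m) : ℕ) *
        (n : ℝ) ^ ((((m + 1) * m : ℕ) : ℝ) / ((m + 1 + e : ℕ) : ℝ)) := by
  set N := m + 1 + e with hN
  have hN0 : (0 : ℝ) < (N : ℝ) := by
    have : 0 < N := by omega
    exact_mod_cast this
  have hn1 : (1 : ℝ) ≤ n := by exact_mod_cast hn
  set x : ℝ := (n : ℝ) ^ ((1 : ℝ) / N) with hx
  have hx1 : 1 ≤ x := Real.one_le_rpow hn1 (by positivity)
  set L := ⌈x⌉₊ with hL
  have hL1 : 1 ≤ L := by
    rw [hL, Nat.one_le_ceil_iff]; linarith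
  have hLx : x ≤ L := Nat.le_ceil x
  have hLx2 : (L : ℝ) ≤ 2 * x := by
    have := Nat.ceil_lt_add_one (show 0 ≤ x by linarith)
    linarith
  have hxN : x ^ N = n := by
    rw [hx, ← Real.rpow_natCast, ← Real.rpow_mul (by linarith), one_div,
      inv_mul_cancel₀ hN0.ne', Real.rpow_one]
  have hcard : n ≤ (grid e (L ^ (m + 1)) L).card := by
    rw [card_grid, ← pow_add, ← hN]
    have : (n : ℝ) ≤ (L : ℝ) ^ N := by
      rw [← hxN]
      exact pow_le_pow_left₀ (by linarith) hLx N
    exact_mod_cast this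
  have h1 := (f_le (k := m + 1) hcard).trans (grid_count m e L hL1)
  have h2 : (L : ℝ) ^ ((m + 1) * m) ≤ 2 ^ ((m + 1) * m) *
      (n : ℝ) ^ ((((m + 1) * m : ℕ) : ℝ) / (N : ℝ)) := by
    calc (L : ℝ) ^ ((m + 1) * m) ≤ (2 * x) ^ ((m + 1) * m) :=
          pow_le_pow_left₀ (by positivity) hLx2 _
      _ = 2 ^ ((m + 1) * m) * x ^ ((m + 1) * m) := mul_pow _ _ _
      _ = _ := by
          congr 1
          rw [hx, ← Real.rpow_natCast, ← Real.rpow_mul (by linarith)]
          congr 1
          field_simp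
  calc (f (e + 1) (m + 1) n : ℝ) ≤
      (((e + 1) * (2 ^ (m * e) * (2 * e + 3) ^ (m + 1) * L ^ ((m + 1) * m)) : ℕ) : ℝ) := by
        exact_mod_cast h1
    _ = (((e + 1) * (2 ^ (m * e) * (2 * e + 3) ^ (m + 1)) : ℕ) : ℝ) * (L : ℝ) ^ ((m + 1) * m) := by
        push_cast; ring
    _ ≤ (((e + 1) * (2 ^ (m * e) * (2 * e + 3) ^ (m + 1)) : ℕ) : ℝ) * (2 ^ ((m + 1) * m) *
      (n : ℝ) ^ ((((m + 1) * m : ℕ) : ℝ) / (N : ℝ))) :=
        mul_le_mul_of_nonneg_left h2 (by positivity)
    _ = _ := by push_cast; ring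

end grid

section lower

theorem class_lower {d : ℕ} (k : ℕ) (P : Finset (Fin d → ℝ)) (hP : 1 ≤ P.card) :
    P.card.choose k ≤ P.card ^ (d + 1) * classCount k P := by
  classical
  have hcc : classCount k P =
      ((P.powersetCard k).image (fun A => Quotient.mk (affSetoid d) A)).card := by
    rw [classCount, classSet_eq, ← coe_image, Set.ncard_coe_finset]
  rw [hcc, ← card_powersetCard]
  apply card_le_mul_card_image
  intro C hC
  obtain ⟨A₀, hA₀, rfl⟩ := mem_image.1 hC
  obtain ⟨t, ht1, ht2, ht3⟩ := exists_affineIndependent ℝ (Fin d → ℝ)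
    (A₀ : Set (Fin d → ℝ))
  have htf : t.Finite := A₀.finite_toSet.subset ht1
  have : Fintype t := htf.fintype
  have hcard : Fintype.card t ≤ d + 1 := by
    refine ht3.card_le_finrank_succ.trans ?_
    have := Submodule.finrank_le (vectorSpan ℝ (Set.range ((↑) : t → (Fin d → ℝ))))
    simp at this
    omega
  -- the maps
  have hex : ∀ A : Finset (Fin d → ℝ), ∃ T : (Fin d → ℝ) ≃ᵃ[ℝ] (Fin d → ℝ),
      A ∈ (P.powersetCard k).filter (fun A => Quotient.mk (affSetoid d) A =
        Quotient.mk (affSetoid d) A₀) → T '' (A₀ : Set (Fin d → ℝ)) = A := by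
    intro A
    by_cases h : A ∈ (P.powersetCard k).filter (fun A => Quotient.mk (affSetoid d) A =
        Quotient.mk (affSetoid d) A₀)
    · have h2 := (mem_filter.1 h).2
      obtain ⟨T, hT⟩ := Quotient.exact h2.symm
      exact ⟨T, fun _ => hT⟩
    · exact ⟨AffineEquiv.refl ℝ _, fun h' => absurd h' h⟩
  choose T hT using hex
  have hle : ((P.powersetCard k).filter (fun A => Quotient.mk (affSetoid d) A =
        Quotient.mk (affSetoid d) A₀)).card ≤ (Fintype.piFinset (fun _ : t => P)).card := by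
    apply card_le_card_of_injOn (fun A x => T A x.1)
    · intro A hA
      rw [mem_coe, Fintype.mem_piFinset]
      intro x
      have h1 : T A x.1 ∈ (A : Set (Fin d → ℝ)) := by
        rw [← hT A hA]
        exact ⟨x.1, ht1 x.2, rfl⟩
      exact (mem_powersetCard.1 (mem_filter.1 hA).1).1 h1
    · intro A hA B hB hAB
      have heq : Set.EqOn (T A : (Fin d → ℝ) → (Fin d → ℝ)) (T B) t := by
        intro x hx
        exact congrFun hAB ⟨x, hx⟩
      have heq2 : Set.EqOn (T A).toAffineMap (T B).toAffineMap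
          (affineSpan ℝ t : Set (Fin d → ℝ)) :=
        AffineMap.eqOn_affineSpan heq
      have heq3 : Set.EqOn (T A) (T B) (A₀ : Set (Fin d → ℝ)) := by
        intro x hx
        apply heq2
        rw [ht2]
        exact subset_affineSpan ℝ _ hx
      have h3 : (A : Set (Fin d → ℝ)) = B := by
        rw [← hT A hA, ← hT B hB]
        exact Set.image_congr heq3
      exact_mod_cast h3
  refine hle.trans ?_
  rw [Fintype.card_piFinset, prod_const, card_univ]
  exact Nat.pow_le_pow_right hP hcard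

theorem choose_lower (k n : ℕ) (hk : 1 ≤ k) (hn : k ≤ n) :
    (n : ℝ) ^ k / ((k : ℝ) ^ k * (k.factorial : ℝ)) ≤ (n.choose k : ℝ) := by
  have h1 := Nat.pow_le_choose (α := ℝ) k n
  refine le_trans ?_ h1
  have hk0 : (0 : ℝ) < k := by exact_mod_cast hk
  rw [← div_div, ← div_pow]
  apply div_le_div_of_nonneg_right _ (by positivity)
  push_cast
  apply pow_le_pow_left₀ (by positivity)
  rw [div_le_iff₀ hk0]
  have h2 : ((n + 1 - k : ℕ) : ℝ) = (n : ℝ) + 1 - k := by
    rw [Nat.cast_sub (by omega)]; push_cast; ring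
  rw [h2]
  have h3 : (1 : ℝ) ≤ k := by exact_mod_cast hk
  have h4 : (k : ℝ) ≤ n := by exact_mod_cast hn
  nlinarith

/-- The lower bound `f_d(k,n) ≥ c n^(k-d-1)`. -/
theorem f_lower (d k n : ℕ) (hd : 1 ≤ d) (hk : d + 1 ≤ k) (hn : k ≤ n) :
    1 / ((k : ℝ) ^ k * (k.factorial : ℝ)) * (n : ℝ) ^ (k - d - 1) ≤ (f d k n : ℝ) := by
  obtain ⟨P, hP, hf⟩ := f_attained k n hd
  have h1 := class_lower k P (by omega)
  rw [hf, hP] at h1
  have h2 := choose_lower k n (by omega) hn
  have hn0 : (0 : ℝ) < n := by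
    have : 0 < n := by omega
    exact_mod_cast this
  have h3 : (n : ℝ) ^ k / ((k : ℝ) ^ k * (k.factorial : ℝ)) ≤ (n : ℝ) ^ (d + 1) * f d k n := by
    refine h2.trans ?_
    exact_mod_cast h1
  have e1 : (n : ℝ) ^ k = (n : ℝ) ^ (d + 1) * (n : ℝ) ^ (k - d - 1) := by
    rw [← pow_add]; congr 1; omega
  rw [e1, mul_div_assoc] at h3
  have h4 := le_of_mul_le_mul_left h3 (by positivity)
  calc 1 / ((k : ℝ) ^ k * (k.factorial : ℝ)) * (n : ℝ) ^ (k - d - 1) =
      (n : ℝ) ^ (k - d - 1) / ((k : ℝ) ^ k * (k.factorial : ℝ)) := by ring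
    _ ≤ _ := h4

end lower

section line

open Pool.Agent.Results.MP_9322ca_co

theorem aff_one (T : (Fin 1 → ℝ) ≃ᵃ[ℝ] (Fin 1 → ℝ)) :
    ∃ l t : ℝ, l ≠ 0 ∧ ∀ v, T v 0 = l * v 0 + t := by
  refine ⟨T.linear (fun _ => 1) 0, T 0 0, ?_, ?_⟩
  · intro h
    have h1 : T.linear (fun _ : Fin 1 => (1 : ℝ)) = 0 := by
      ext i; rw [Subsingleton.elim i 0, h]; rfl
    have h2 : (fun _ : Fin 1 => (1 : ℝ)) = 0 := by
      apply T.linear.injective
      rw [h1, map_zero]
    have := congrFun h2 0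
    simp at this
  · intro v
    have h1 : T v = T.linear v + T 0 := by
      have := T.map_vadd 0 v
      simpa using this
    have h2 : v = v 0 • (fun _ : Fin 1 => (1 : ℝ)) := by
      ext i; rw [Subsingleton.elim i 0]; simp
    have h3 : T.linear v = v 0 • T.linear (fun _ : Fin 1 => (1 : ℝ)) := by
      rw [← map_smul, ← h2]
    rw [h1, h3]
    simp only [Pi.add_apply, Pi.smul_apply, smul_eq_mul]
    ring

theorem hom_le (k : ℕ) (P : Finset (Fin 1 → ℝ)) :
    OrderOfMagnitude.classCount k (P.image (fun v => v 0)) ≤ 2 * classCount k P := by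
  classical
  set X := P.image (fun v => v 0) with hX
  let lf : Finset ℝ → Finset (Fin 1 → ℝ) := fun B => B.image (fun x _ => x)
  have hlfinj : Function.Injective (fun (x : ℝ) (_ : Fin 1) => x) :=
    fun x y h => congrFun h 0
  have hlf : ∀ B ∈ X.powersetCard k, lf B ∈ P.powersetCard k := by
    intro B hB
    rw [mem_powersetCard] at hB ⊢
    refine ⟨?_, ?_⟩
    · intro v hv
      obtain ⟨x, hx, rfl⟩ := mem_image.1 hv
      obtain ⟨w, hw, hwx⟩ := mem_image.1 (hB.1 hx)
      have : (fun _ => x) = w := by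
        ext i; rw [Subsingleton.elim i 0, ← hwx]
      rw [this]; exact hw
    · rw [card_image_of_injective _ hlfinj, hB.2]
  set H := {C : Quotient OrderOfMagnitude.homSetoid |
    ∃ A ∈ X.powersetCard k, Quotient.mk OrderOfMagnitude.homSetoid A = C} with hH
  set Cl := {C : Quotient (affSetoid 1) |
    ∃ A ∈ P.powersetCard k, Quotient.mk (affSetoid 1) A = C} with hCl
  have hex : ∀ C : Quotient OrderOfMagnitude.homSetoid, ∃ B : Finset ℝ, C ∈ H →
      B ∈ X.powersetCard k ∧ Quotient.mk OrderOfMagnitude.homSetoid B = C := by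
    intro C
    by_cases h : C ∈ H
    · obtain ⟨B, h1, h2⟩ := h
      exact ⟨B, fun _ => ⟨h1, h2⟩⟩
    · exact ⟨∅, fun h' => absurd h' h⟩
  choose rep hrep using hex
  have hT : ∀ B : Finset ℝ, ∃ l t : ℝ, l ≠ 0 ∧
      (∀ x ∈ B, ∃ v ∈ (Quotient.mk (affSetoid 1) (lf B)).out, x = l * v 0 + t) ∧
      (∀ v ∈ (Quotient.mk (affSetoid 1) (lf B)).out, l * v 0 + t ∈ B) := by
    intro B
    have h1 : AffEq (Quotient.mk (affSetoid 1) (lf B)).out (lf B) :=
      Quotient.exact (Quotient.out_eq (Quotient.mk (affSetoid 1) (lf B)))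
    obtain ⟨T, hT⟩ := h1
    obtain ⟨l, t, hl, hlt⟩ := aff_one T
    refine ⟨l, t, hl, ?_, ?_⟩
    · intro x hx
      have h2 : (fun _ : Fin 1 => x) ∈ T '' ((Quotient.mk (affSetoid 1) (lf B)).out :
          Set (Fin 1 → ℝ)) := by
        rw [hT]
        exact mem_coe.2 (mem_image.2 ⟨x, hx, rfl⟩)
      obtain ⟨v, hv, hvx⟩ := h2
      refine ⟨v, hv, ?_⟩
      rw [← hlt v, hvx]
    · intro v hv
      have h2 : T v ∈ (lf B : Set (Fin 1 → ℝ)) := by
        rw [← hT]; exact ⟨v, hv, rfl⟩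
      obtain ⟨x, hx, hxv⟩ := mem_image.1 (mem_coe.1 h2)
      rw [← hlt v, ← hxv]
      exact hx
  choose l t hl hlt1 hlt2 using hT
  have hle : H.ncard ≤ (Cl ×ˢ (Set.univ : Set Bool)).ncard := by
    apply Set.ncard_le_ncard_of_injOn
      (fun C => (Quotient.mk (affSetoid 1) (lf (rep C)), decide (0 < l (rep C))))
      (ht := (classSet_finite k P).prod Set.finite_univ)
    · intro C hC
      exact ⟨⟨_, hlf _ (hrep C hC).1, rfl⟩, Set.mem_univ _⟩
    · intro C hC C' hC' h
      rw [Prod.mk.injEq] at h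
      obtain ⟨h1, h2⟩ := h
      have hs : (0 < l (rep C)) ↔ (0 < l (rep C')) := by
        simpa using h2
      rw [← (hrep C hC).2, ← (hrep C' hC').2]
      apply Quotient.sound
      set B := rep C
      set B' := rep C'
      have hpos : 0 < l B' / l B := by
        rcases lt_or_gt_of_ne (hl B) with hneg | hp
        · have h3 : l B' < 0 := by
            rcases lt_or_gt_of_ne (hl B') with h4 | h4
            · exact h4
            · exact absurd (hs.2 h4) (not_lt.2 hneg.le)
          exact div_pos_of_neg_of_neg h3 hneg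
        · exact div_pos (hs.1 hp) hp
      refine ⟨l B' / l B, t B' - l B' / l B * t B, hpos, ?_⟩
      have hcomp : ∀ y : ℝ, l B' / l B * (l B * y + t B) + (t B' - l B' / l B * t B) =
          l B' * y + t B' := by
        intro y
        have := hl B
        field_simp
        ring
      ext z
      simp only [Set.mem_image, mem_coe]
      constructor
      · rintro ⟨x, hx, rfl⟩
        obtain ⟨v, hv, rfl⟩ := hlt1 B x hx
        rw [hcomp]
        rw [h1] at hv
        exact hlt2 B' v hv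
      · intro hz
        obtain ⟨v, hv, rfl⟩ := hlt1 B' z hz
        rw [← h1] at hv
        exact ⟨_, hlt2 B v hv, hcomp _⟩
  calc OrderOfMagnitude.classCount k X = H.ncard := rfl
    _ ≤ (Cl ×ˢ (Set.univ : Set Bool)).ncard := hle
    _ = Cl.ncard * (Set.univ : Set Bool).ncard := Set.ncard_prod
    _ = 2 * classCount k P := by
      rw [Set.ncard_univ, Nat.card_eq_fintype_card, Fintype.card_bool, mul_comm]
      rfl

theorem card_proj (P : Finset (Fin 1 → ℝ)) : (P.image (fun v => v 0)).card = P.card := by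
  apply card_image_of_injective
  intro v w h
  ext i
  rw [Subsingleton.elim i 0]
  exact h

theorem line_lower (k : ℕ) (hk : 4 ≤ k) (n : ℕ) (hn : k ≤ n) :
    1 / (2 * (324 * (k : ℝ) ^ (4 * k + 1))) * (n : ℝ) ^ (k - 1) ≤ (f 1 k n : ℝ) := by
  obtain ⟨P, hP, hf⟩ := f_attained (d := 1) k n le_rfl
  have h1 := OrderOfMagnitude.lower_bound (P.image (fun v => v 0)) hk (by rw [card_proj]; omega)
  rw [card_proj, hP] at h1
  have h2 := hom_le k P
  rw [hf] at h2
  have h2' : (OrderOfMagnitude.classCount k (P.image (fun v => v 0)) : ℝ) ≤ 2 * f 1 k n := by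
    exact_mod_cast h2
  have hk0 : (0 : ℝ) < 324 * (k : ℝ) ^ (4 * k + 1) := by
    have : (0 : ℝ) < k := by
      have : 0 < k := by omega
      exact_mod_cast this
    positivity
  rw [one_div, inv_mul_le_iff₀ (by positivity)]
  calc (n : ℝ) ^ (k - 1) ≤ _ := h1
    _ ≤ (324 * (k : ℝ) ^ (4 * k + 1)) * (2 * f 1 k n) :=
        mul_le_mul_of_nonneg_left h2' hk0.le
    _ = _ := by ring

theorem line_lower_three (n : ℕ) (hn : 3 ≤ n) :
    1 / (2 * (972 * 3 ^ 12)) * ((n : ℝ) ^ 2 / (1 + Real.log n)) ≤ (f 1 3 n : ℝ) := by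
  obtain ⟨P, hP, hf⟩ := f_attained (d := 1) 3 n le_rfl
  have h1 := OrderOfMagnitude.lower_bound_three (P.image (fun v => v 0))
    (by rw [card_proj]; omega)
  rw [card_proj, hP] at h1
  have h2 := hom_le 3 P
  rw [hf] at h2
  have h2' : (OrderOfMagnitude.classCount 3 (P.image (fun v => v 0)) : ℝ) ≤ 2 * f 1 3 n := by
    exact_mod_cast h2
  have hlog : 0 ≤ Real.log n := Real.log_nonneg (by
    have : 1 ≤ n := by omega
    exact_mod_cast this)
  rw [one_div, inv_mul_le_iff₀ (by positivity), div_le_iff₀ (by linarith)]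
  calc (n : ℝ) ^ 2 ≤ _ := h1
    _ ≤ (972 * 3 ^ 12) * (2 * f 1 3 n * (1 + Real.log n)) := by
        apply mul_le_mul_of_nonneg_left _ (by norm_num)
        exact mul_le_mul_of_nonneg_right h2' (by linarith)
    _ = _ := by ring

end line

theorem upper (d k : ℕ) (hd : 1 ≤ d) (hk : 1 ≤ k) : ∃ C : ℝ, 0 < C ∧ ∀ n : ℕ, 1 ≤ n →
    (f d k n : ℝ) ≤ C * (n : ℝ) ^ (((k : ℝ) * ((k : ℝ) - 1)) / ((k : ℝ) + (d : ℝ) - 1)) := by
  obtain ⟨e, rfl⟩ : ∃ e, d = e + 1 := ⟨d - 1, by omega⟩
  obtain ⟨m, rfl⟩ : ∃ m, k = m + 1 := ⟨k - 1, by omega⟩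
  refine ⟨((e + 1) * (2 ^ (m * e) * (2 * e + 3) ^ (m + 1)) * 2 ^ ((m + 1) * m) : ℕ), ?_, ?_⟩
  · have : 0 < (e + 1) * (2 ^ (m * e) * (2 * e + 3) ^ (m + 1)) * 2 ^ ((m + 1) * m) := by
      positivity
    exact_mod_cast this
  · intro n hn
    have h := f_upper e m n hn
    have e1 : (((m + 1 : ℕ) : ℝ) * (((m + 1 : ℕ) : ℝ) - 1)) /
        (((m + 1 : ℕ) : ℝ) + ((e + 1 : ℕ) : ℝ) - 1) =
        (((m + 1) * m : ℕ) : ℝ) / ((m + 1 + e : ℕ) : ℝ) := by
      push_cast
      congr 1 <;> ring
    rw [e1]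
    exact h

/-- **Affine classes of `k`-subsets of `n` points of `ℝ^d`.** -/
theorem result :
    -- `f d k n` is the minimum of the problem
    (∀ d k n : ℕ, 1 ≤ d →
      (∃ P : Finset (Fin d → ℝ), P.card = n ∧ classCount k P = f d k n) ∧
      ∀ P : Finset (Fin d → ℝ), P.card = n → f d k n ≤ classCount k P) ∧
    -- upper bound for all `d` and `k`
    (∀ d k : ℕ, 1 ≤ d → 1 ≤ k → ∃ C : ℝ, 0 < C ∧ ∀ n : ℕ, 1 ≤ n →
      (f d k n : ℝ) ≤ C * (n : ℝ) ^ (((k : ℝ) * ((k : ℝ) - 1)) / ((k : ℝ) + (d : ℝ) - 1))) ∧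
    -- lower bound for all `d` and `k ≥ d + 1`
    (∀ d k : ℕ, 1 ≤ d → d + 1 ≤ k → ∃ c : ℝ, 0 < c ∧ ∀ n : ℕ, k ≤ n →
      c * (n : ℝ) ^ (k - d - 1) ≤ (f d k n : ℝ)) ∧
    -- order of magnitude on the line for `k ≥ 4`
    (∀ k : ℕ, 4 ≤ k → ∃ c C : ℝ, 0 < c ∧ 0 < C ∧ ∀ n : ℕ, k ≤ n →
      c * (n : ℝ) ^ (k - 1) ≤ (f 1 k n : ℝ) ∧ (f 1 k n : ℝ) ≤ C * (n : ℝ) ^ (k - 1)) ∧
    -- the line, `k = 3`
    (∃ c C : ℝ, 0 < c ∧ 0 < C ∧ ∀ n : ℕ, 3 ≤ n →
      c * ((n : ℝ) ^ 2 / (1 + Real.log n)) ≤ (f 1 3 n : ℝ) ∧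
      (f 1 3 n : ℝ) ≤ C * (n : ℝ) ^ 2) := by
  have hline : ∀ k : ℕ, 1 ≤ k → ∃ C : ℝ, 0 < C ∧ ∀ n : ℕ, 1 ≤ n →
      (f 1 k n : ℝ) ≤ C * (n : ℝ) ^ (k - 1) := by
    intro k hk
    obtain ⟨C, hC, h⟩ := upper 1 k le_rfl hk
    refine ⟨C, hC, fun n hn => ?_⟩
    have h1 := h n hn
    have hk0 : (k : ℝ) ≠ 0 := by
      have : (0 : ℝ) < k := by exact_mod_cast hk
      exact this.ne'
    have e1 : ((k : ℝ) * ((k : ℝ) - 1)) / ((k : ℝ) + ((1 : ℕ) : ℝ) - 1) = ((k - 1 : ℕ) : ℝ) := by
      rw [Nat.cast_sub hk]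
      push_cast
      rw [add_sub_cancel_right, mul_div_assoc, mul_div_cancel₀ _ hk0]
    rw [e1, Real.rpow_natCast] at h1
    exact h1
  refine ⟨?_, upper, ?_, ?_, ?_⟩
  · intro d k n hd
    exact ⟨f_attained k n hd, fun P hP => f_le hP.ge⟩
  · intro d k hd hk
    refine ⟨1 / ((k : ℝ) ^ k * (k.factorial : ℝ)), ?_, fun n hn => f_lower d k n hd hk hn⟩
    have : (0 : ℝ) < k := by
      have : 0 < k := by omega
      exact_mod_cast this
    positivity
  · intro k hk
    obtain ⟨C, hC, h⟩ := hline k (by omega)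
    refine ⟨1 / (2 * (324 * (k : ℝ) ^ (4 * k + 1))), C, ?_, hC, fun n hn =>
      ⟨line_lower k hk n hn, h n (by omega)⟩⟩
    have : (0 : ℝ) < k := by
      have : 0 < k := by omega
      exact_mod_cast this
    positivity
  · obtain ⟨C, hC, h⟩ := hline 3 (by omega)
    exact ⟨1 / (2 * (972 * 3 ^ 12)), C, by positivity, hC, fun n hn =>
      ⟨line_lower_three n hn, by simpa using h n (by omega)⟩⟩

end Pool.Agent.Results.MP_b430f2_co.AffineClasses
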