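import Pool.Agent.Helper309.Aff.B3

set_option autoImplicit false

/-!
Affine equivalence classes of `k`-subsets of `n` points in `ℝ^d`: for `k ≥ d + 3` the minimum
number `f_d(k,n)` of classes lies between constant multiples of `n ^ (k - d)` and
`n ^ (k (k - 1) / (k + d - 1)) = n ^ (k - d + d (d - 1) / (k + d - 1))`.
-/

namespace Pool.Agent.Results.MP_b430f2_co.ExponentBounds

open Pool.Agent.Helper309.Aff

theorem result (d k : ℕ) (hd : 1 ≤ d) (hk : d + 2 ≤ k) :
    ∃ c C : ℝ, 0 < c ∧ 0 < C ∧ ∀ n : ℕ, k ≤ n →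
      c * (n : ℝ) ^ (k - d) / (1 + Real.log n) ≤ f d k n ∧
      (d + 3 ≤ k → c * (n : ℝ) ^ (k - d) ≤ f d k n) ∧
      (f d k n : ℝ) ≤ C * (n : ℝ) ^ ((k : ℝ) * (k - 1) / (k + d - 1)) := by
  obtain ⟨C, hC, hup⟩ := f_upper d k hd (by omega)
  rcases Nat.lt_or_ge k (d + 3) with h | h
  · have hkd : k = d + 2 := by omega
    subst hkd
    obtain ⟨c, hc, hlow⟩ := f_lower_log d hd
    refine ⟨c, C, hc, hC, fun n hn => ⟨?_, fun h' => absurd h' (by omega), hup n (by omega)⟩⟩
    have e : d + 2 - d = 2 := by omega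
    rw [e]
    exact hlow n hn
  · obtain ⟨c, hc, hlow⟩ := f_lower d k hd h
    refine ⟨c, C, hc, hC, fun n hn => ⟨?_, fun _ => hlow n hn, hup n (by omega)⟩⟩
    refine le_trans ?_ (hlow n hn)
    have hn1 : (1 : ℝ) ≤ n := by exact_mod_cast (show 1 ≤ n by omega)
    have hl := Real.log_nonneg hn1
    exact div_le_self (by positivity) (by linarith)

end Pool.Agent.Results.MP_b430f2_co.ExponentBounds
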