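import Mathlib
import Pool.Agent.Helper514.Hom

set_option autoImplicit false

namespace Pool.Agent.Results.MP_b430f2_co.OrderBounds

open Finset

/-- Affine equivalence of finite subsets of `ℝ^d`: some invertible affine map of `ℝ^d` maps the
first set onto the second. -/
def AffineEq (d : ℕ) (A B : Finset (Fin d → ℝ)) : Prop :=
  ∃ T : (Fin d → ℝ) ≃ᵃ[ℝ] (Fin d → ℝ), T '' (A : Set (Fin d → ℝ)) = (B : Set (Fin d → ℝ))

lemma affineEq_equivalence (d : ℕ) : Equivalence (AffineEq d) where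
  refl A := ⟨AffineEquiv.refl ℝ _, by simp⟩
  symm := by
    rintro A B ⟨T, h⟩
    refine ⟨T.symm, ?_⟩
    rw [← h, ← Set.image_comp]
    simp
  trans := by
    rintro A B C ⟨T, h⟩ ⟨T', h'⟩
    refine ⟨T.trans T', ?_⟩
    rw [← h', ← h, ← Set.image_comp]
    rfl

/-- The equivalence relation of affine equivalence. -/
def affSetoid (d : ℕ) : Setoid (Finset (Fin d → ℝ)) := ⟨AffineEq d, affineEq_equivalence d⟩

/-- The set of affine equivalence classes that contain a `k`-element subset of `P`. -/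
def classes (d k : ℕ) (P : Finset (Fin d → ℝ)) : Set (Quotient (affSetoid d)) :=
  {C | ∃ A ∈ P.powersetCard k, Quotient.mk (affSetoid d) A = C}

/-- `c_k(P)`: the number of affine equivalence classes that contain a `k`-element subset
of `P`. -/
noncomputable def classCount (d k : ℕ) (P : Finset (Fin d → ℝ)) : ℕ := (classes d k P).ncard

/-- `f_d(k,n)`: the minimum of `c_k(P)` over all sets `P` of `n` points of `ℝ^d`. -/
noncomputable def f (d k n : ℕ) : ℕ :=
  sInf {c | ∃ P : Finset (Fin d → ℝ), P.card = n ∧ classCount d k P = c}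

lemma classes_eq (d k : ℕ) (P : Finset (Fin d → ℝ)) :
    classes d k P = (fun A => Quotient.mk (affSetoid d) A) '' (P.powersetCard k : Set _) := by
  ext C
  simp [classes]

lemma classes_finite (d k : ℕ) (P : Finset (Fin d → ℝ)) : (classes d k P).Finite := by
  rw [classes_eq]
  exact (Finset.finite_toSet _).image _

lemma classCount_mono (d k : ℕ) {P Q : Finset (Fin d → ℝ)} (h : P ⊆ Q) :
    classCount d k P ≤ classCount d k Q := by
  apply Set.ncard_le_ncard _ (classes_finite d k Q)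
  rintro C ⟨A, hA, rfl⟩
  exact ⟨A, Finset.powersetCard_mono h hA, rfl⟩

/-! ### The general lower bound -/

open Classical in
lemma class_card_le (d k : ℕ) (P : Finset (Fin d → ℝ)) (hP : 1 ≤ P.card)
    (A₀ : Finset (Fin d → ℝ)) :
    ((P.powersetCard k).filter (fun A => AffineEq d A₀ A)).card ≤ P.card ^ (d + 1) := by
  obtain ⟨t, ht, hspan, hind⟩ := exists_affineIndependent ℝ (Fin d → ℝ) (A₀ : Set (Fin d → ℝ))
  have htfin : t.Finite := (Finset.finite_toSet A₀).subset ht
  lift t to Finset (Fin d → ℝ) using htfin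
  have hcard : Fintype.card t ≤ d + 1 := by
    have h1 : Fintype.card t ≤
        Module.finrank ℝ (vectorSpan ℝ (Set.range ((↑) : t → (Fin d → ℝ)))) + 1 :=
      hind.card_le_finrank_succ
    have h2 : Module.finrank ℝ (vectorSpan ℝ (Set.range ((↑) : t → (Fin d → ℝ)))) ≤ d := by
      have := Submodule.finrank_le (vectorSpan ℝ (Set.range ((↑) : t → (Fin d → ℝ))))
      simpa using this
    exact h1.trans (Nat.succ_le_succ h2)
  set S := (P.powersetCard k).filter (fun A => AffineEq d A₀ A) with hS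
  have hT : ∀ A : S, ∃ T : (Fin d → ℝ) ≃ᵃ[ℝ] (Fin d → ℝ),
      T '' (A₀ : Set (Fin d → ℝ)) = ((A : Finset (Fin d → ℝ)) : Set (Fin d → ℝ)) := by
    intro A
    exact (Finset.mem_filter.1 A.2).2
  choose T hT using hT
  have hmem : ∀ (A : S) (b : t), T A b ∈ P := by
    intro A b
    have h1 : T A b ∈ ((A : Finset (Fin d → ℝ)) : Set (Fin d → ℝ)) := by
      rw [← hT A]
      exact ⟨b, ht b.2, rfl⟩
    have h2 := (Finset.mem_powersetCard.1 (Finset.mem_filter.1 A.2).1).1
    exact h2 h1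
  let F : S → (t → P) := fun A b => ⟨T A b, hmem A b⟩
  have hF : Function.Injective F := by
    intro A B hAB
    have hag : Set.EqOn (T A : (Fin d → ℝ) →ᵃ[ℝ] (Fin d → ℝ)) (T B : (Fin d → ℝ) →ᵃ[ℝ] (Fin d → ℝ)) t := by
      intro b hb
      have := congrFun hAB ⟨b, hb⟩
      exact congrArg Subtype.val this
    have hag2 := AffineMap.eqOn_affineSpan hag
    rw [hspan] at hag2
    have : ((A : Finset (Fin d → ℝ)) : Set (Fin d → ℝ)) = ((B : Finset (Fin d → ℝ)) : Set (Fin d → ℝ)) := by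
      rw [← hT A, ← hT B]
      apply Set.image_congr
      intro x hx
      exact hag2 (subset_affineSpan ℝ _ hx)
    exact Subtype.ext (Finset.coe_injective this)
  have h1 := Fintype.card_le_of_injective F hF
  rw [Fintype.card_fun, Fintype.card_coe, Fintype.card_coe] at h1
  exact h1.trans (Nat.pow_le_pow_right hP hcard)

lemma choose_le (d k : ℕ) (P : Finset (Fin d → ℝ)) (hP : 1 ≤ P.card) :
    P.card.choose k ≤ classCount d k P * P.card ^ (d + 1) := by
  classical
  have hfin := classes_finite d k P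
  have h1 : (P.powersetCard k).card ≤ P.card ^ (d + 1) * hfin.toFinset.card := by
    apply Finset.card_le_mul_card_image_of_maps_to (f := fun A => Quotient.mk (affSetoid d) A)
    · intro A hA
      rw [Set.Finite.mem_toFinset]
      exact ⟨A, hA, rfl⟩
    · intro C hC
      rw [Set.Finite.mem_toFinset] at hC
      obtain ⟨A₀, hA₀, rfl⟩ := hC
      refine le_trans (Finset.card_le_card ?_) (class_card_le d k P hP A₀)
      intro A hA
      rw [Finset.mem_filter] at hA ⊢
      refine ⟨hA.1, ?_⟩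
      exact Quotient.exact hA.2.symm
  rw [Finset.card_powersetCard] at h1
  unfold classCount
  rwa [Set.ncard_eq_toFinset_card _ hfin, mul_comm]

/-! ### The upper bound -/

/-- The real point with the given natural coordinates. -/
def emb {e : ℕ} (v : Fin (e + 1) → ℕ) : Fin (e + 1) → ℝ := fun i => (v i : ℝ)

lemma emb_injective {e : ℕ} : Function.Injective (emb (e := e)) := by
  intro v w h
  funext i
  have := congrFun h i
  simp only [emb] at this
  exact_mod_cast this

lemma affineEq_of_map {d k : ℕ} (g : (Fin d → ℝ) →ₗ[ℝ] (Fin d → ℝ)) (hg : Function.Injective g)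
    (t : Fin d → ℝ) (s s' : Fin k → (Fin d → ℝ)) (h : ∀ i, s' i = g (s i) + t) :
    AffineEq d (univ.image s) (univ.image s') := by
  refine ⟨(LinearEquiv.ofInjectiveEndo g hg).toAffineEquiv.trans
    (AffineEquiv.constVAdd ℝ _ t), ?_⟩
  ext x
  simp only [Finset.coe_image, Finset.coe_univ, Set.image_univ, Set.mem_image, Set.mem_range,
    exists_exists_eq_and]
  constructor
  · rintro ⟨i, rfl⟩
    refine ⟨i, ?_⟩
    rw [h i]
    simp [add_comm]
  · rintro ⟨i, rfl⟩
    refine ⟨i, ?_⟩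
    rw [h i]
    simp [add_comm]

/-- A linear map `x ↦ (x₀ + ∑ aⱼ xⱼ, xⱼ - ∑ Bⱼᵢ xᵢ)`. -/
def lin {e : ℕ} (a : Fin e → ℝ) (B : Fin e → Fin e → ℝ) :
    (Fin (e + 1) → ℝ) →ₗ[ℝ] (Fin (e + 1) → ℝ) where
  toFun x := Fin.cons (x 0 + ∑ j, a j * x j.succ) (fun j => x j.succ - ∑ i, B j i * x i.succ)
  map_add' x y := by
    funext i
    refine Fin.cases ?_ (fun j => ?_) i
    · simp only [Fin.cons_zero, Pi.add_apply, mul_add, Finset.sum_add_distrib]
      ring
    · simp only [Fin.cons_succ, Pi.add_apply, mul_add, Finset.sum_add_distrib]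
      ring
  map_smul' c x := by
    funext i
    refine Fin.cases ?_ (fun j => ?_) i
    · simp only [Fin.cons_zero, Pi.smul_apply, smul_eq_mul, RingHom.id_apply, mul_add,
        Finset.mul_sum]
      congr 1
      exact Finset.sum_congr rfl (fun j _ => by ring)
    · simp only [Fin.cons_succ, Pi.smul_apply, smul_eq_mul, RingHom.id_apply, mul_sub,
        Finset.mul_sum]
      congr 1
      exact Finset.sum_congr rfl (fun j _ => by ring)

lemma lin_zero {e : ℕ} (a : Fin e → ℝ) (B : Fin e → Fin e → ℝ) (x : Fin (e + 1) → ℝ) :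
    lin a B x 0 = x 0 + ∑ j, a j * x j.succ := rfl

lemma lin_succ {e : ℕ} (a : Fin e → ℝ) (B : Fin e → Fin e → ℝ) (x : Fin (e + 1) → ℝ)
    (j : Fin e) : lin a B x j.succ = x j.succ - ∑ i, B j i * x i.succ := rfl

lemma lin_injective {e : ℕ} (a : Fin e → ℝ) (B : Fin e → Fin e → ℝ) (J : Finset (Fin e))
    (h1 : ∀ j ∈ J, B j = 0) (h2 : ∀ j, ∀ i ∉ J, B j i = 0) :
    Function.Injective (lin a B) := by
  rw [← LinearMap.ker_eq_bot, LinearMap.ker_eq_bot']
  intro x hx
  have hs : ∀ j : Fin e, x j.succ - ∑ i, B j i * x i.succ = 0 := by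
    intro j
    rw [← lin_succ a B x j, hx]
    rfl
  have hJ : ∀ j ∈ J, x j.succ = 0 := by
    intro j hj
    have := hs j
    rw [h1 j hj] at this
    simpa using this
  have hall : ∀ j : Fin e, x j.succ = 0 := by
    intro j
    have h3 : ∑ i, B j i * x i.succ = 0 := by
      apply Finset.sum_eq_zero
      intro i _
      by_cases hi : i ∈ J
      · rw [hJ i hi, mul_zero]
      · rw [h2 j i hi, zero_mul]
    have := hs j
    rw [h3, sub_zero] at this
    exact this
  have h0 : x 0 = 0 := by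
    have h4 : lin a B x 0 = 0 := by
      rw [hx]
      rfl
    rw [lin_zero] at h4
    simpa [hall] using h4
  funext i
  refine Fin.cases h0 (fun j => ?_) i
  exact hall j

/-- The coordinates in `J` together with the constant `1` are independent on the tuple `s`. -/
def Ind {e k : ℕ} (J : Finset (Fin e)) (s : Fin k → Fin (e + 1) → ℕ) : Prop :=
  ∀ (a : Fin e → ℝ) (b : ℝ), (∀ j ∉ J, a j = 0) →
    (∀ i, ∑ j, a j * (s i j.succ : ℝ) + b = 0) → (a = 0 ∧ b = 0)

/-- The normalised tuples of type `J`. -/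
def good {e : ℕ} (k M L : ℕ) (J : Finset (Fin e)) : Set (Fin k → Fin (e + 1) → ℕ) :=
  {s | (∀ i, s i 0 < M) ∧ (∀ i, ∀ j ∈ J, s i j.succ < L) ∧ (∀ i, ∀ j ∉ J, s i j.succ = 0) ∧
    Ind J s}

/-- The affine class of a tuple. -/
noncomputable def cl {e k : ℕ} (s : Fin k → Fin (e + 1) → ℕ) : Quotient (affSetoid (e + 1)) :=
  Quotient.mk (affSetoid (e + 1)) (univ.image (fun i => emb (s i)))

/-- The action of the triple `(a, b, c)`. -/
def act {e : ℕ} (T : (Fin e → ℕ) × ℕ × (Fin e → ℕ)) (v : Fin (e + 1) → ℕ) : Fin (e + 1) → ℕ :=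
  Fin.cons (v 0 + ∑ j, T.1 j * v j.succ + T.2.1) (fun j => v j.succ + T.2.2 j)

lemma cl_act {e k : ℕ} (T : (Fin e → ℕ) × ℕ × (Fin e → ℕ)) (s : Fin k → Fin (e + 1) → ℕ) :
    cl (fun i => act T (s i)) = cl s := by
  apply Quotient.sound
  apply (affineEq_equivalence (e + 1)).symm
  apply affineEq_of_map (lin (fun j => (T.1 j : ℝ)) (fun _ _ => 0))
    (lin_injective _ _ univ (fun j _ => rfl) (fun j i hi => absurd (Finset.mem_univ i) hi))
    (Fin.cons (T.2.1 : ℝ) (fun j => (T.2.2 j : ℝ)))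
  intro i
  funext m
  refine Fin.cases ?_ (fun j => ?_) m
  · rw [Pi.add_apply, lin_zero]
    simp [emb, act]
  · rw [Pi.add_apply, lin_succ]
    simp [emb, act]

/-- The target box. -/
def box {e : ℕ} (X Y : ℕ) (J : Finset (Fin e)) : Finset (Fin (e + 1) → ℕ) :=
  Fintype.piFinset (Fin.cons (range X) (fun j => if j ∈ J then range Y else {0}) :
    Fin (e + 1) → Finset ℕ)

lemma mem_box {e : ℕ} (X Y : ℕ) (J : Finset (Fin e)) (v : Fin (e + 1) → ℕ) :
    v ∈ box X Y J ↔ v 0 < X ∧ (∀ j ∈ J, v j.succ < Y) ∧ (∀ j ∉ J, v j.succ = 0) := by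
  unfold box
  rw [Fintype.mem_piFinset]
  constructor
  · intro h
    refine ⟨by simpa using h 0, fun j hj => ?_, fun j hj => ?_⟩
    · have := h j.succ
      simpa [hj] using this
    · have := h j.succ
      simpa [hj] using this
  · rintro ⟨h0, h1, h2⟩ i
    refine Fin.cases ?_ (fun j => ?_) i
    · simpa using h0
    · by_cases hj : j ∈ J
      · simpa [hj] using h1 j hj
      · simpa [hj] using h2 j hj

lemma card_box {e : ℕ} (X Y : ℕ) (J : Finset (Fin e)) :
    (box X Y J).card = X * Y ^ J.card := by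
  unfold box
  rw [Fintype.card_piFinset, Fin.prod_univ_succ]
  simp only [Fin.cons_zero, Fin.cons_succ, Finset.card_range]
  congr 1
  have : ∀ j : Fin e, (if j ∈ J then range Y else {0}).card = if j ∈ J then Y else 1 := by
    intro j
    split_ifs <;> simp
  simp only [this]
  rw [Finset.prod_ite_mem, Finset.univ_inter, Finset.prod_const]

/-- The parameter set of the maps. -/
def par {e : ℕ} (A M L : ℕ) (J : Finset (Fin e)) : Finset ((Fin e → ℕ) × ℕ × (Fin e → ℕ)) :=
  (Fintype.piFinset (fun j => if j ∈ J then range A else {0})) ×ˢ (range M ×ˢ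
    (Fintype.piFinset (fun j => if j ∈ J then range L else {0})))

lemma card_par {e : ℕ} (A M L : ℕ) (J : Finset (Fin e)) :
    (par A M L J).card = A ^ J.card * (M * L ^ J.card) := by
  have h : ∀ Y : ℕ, (Fintype.piFinset (fun j : Fin e =>
      if j ∈ J then range Y else {0})).card = Y ^ J.card := by
    intro Y
    rw [Fintype.card_piFinset]
    have : ∀ j : Fin e, (if j ∈ J then range Y else {0}).card = if j ∈ J then Y else 1 := by
      intro j
      split_ifs <;> simp
    simp only [this]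
    rw [Finset.prod_ite_mem, Finset.univ_inter, Finset.prod_const]
  unfold par
  rw [Finset.card_product, Finset.card_product, h, h, Finset.card_range]

lemma mem_par {e : ℕ} (A M L : ℕ) (J : Finset (Fin e)) (T : (Fin e → ℕ) × ℕ × (Fin e → ℕ)) :
    T ∈ par A M L J ↔ ((∀ j ∈ J, T.1 j < A) ∧ (∀ j ∉ J, T.1 j = 0)) ∧ T.2.1 < M ∧
      ((∀ j ∈ J, T.2.2 j < L) ∧ (∀ j ∉ J, T.2.2 j = 0)) := by
  have h : ∀ (Y : ℕ) (v : Fin e → ℕ), v ∈ (Fintype.piFinset (fun j : Fin e =>
      if j ∈ J then range Y else {0})) ↔ ((∀ j ∈ J, v j < Y) ∧ (∀ j ∉ J, v j = 0)) := by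
    intro Y v
    rw [Fintype.mem_piFinset]
    constructor
    · intro h
      refine ⟨fun j hj => ?_, fun j hj => ?_⟩
      · simpa [hj] using h j
      · simpa [hj] using h j
    · rintro ⟨h1, h2⟩ j
      by_cases hj : j ∈ J
      · simpa [hj] using h1 j hj
      · simpa [hj] using h2 j hj
  unfold par
  rw [Finset.mem_product, Finset.mem_product, h, h, Finset.mem_range]

lemma act_mem {e : ℕ} {A M L : ℕ} {J : Finset (Fin e)} (hAL : A * L ≤ M)
    {T : (Fin e → ℕ) × ℕ × (Fin e → ℕ)} (hT : T ∈ par A M L J) {v : Fin (e + 1) → ℕ}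
    (hv : v ∈ box M L J) : act T v ∈ box ((J.card + 2) * M) (2 * L) J := by
  rw [mem_par] at hT
  rw [mem_box] at hv ⊢
  obtain ⟨⟨ha1, ha2⟩, hb, hc1, hc2⟩ := hT
  obtain ⟨hv0, hv1, hv2⟩ := hv
  refine ⟨?_, fun j hj => ?_, fun j hj => ?_⟩
  · have h1 : ∑ j, T.1 j * v j.succ ≤ J.card * M := by
      calc ∑ j, T.1 j * v j.succ = ∑ j ∈ J, T.1 j * v j.succ := by
            rw [← Finset.sum_subset (Finset.subset_univ J)]
            intro j _ hj
            rw [ha2 j hj, zero_mul]
        _ ≤ ∑ _j ∈ J, M := by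
            apply Finset.sum_le_sum
            intro j hj
            exact (Nat.mul_le_mul (ha1 j hj).le (hv1 j hj).le).trans hAL
        _ = J.card * M := by simp
    simp only [act, Fin.cons_zero]
    have : (J.card + 2) * M = J.card * M + M + M := by ring
    omega
  · simp only [act, Fin.cons_succ]
    have := hv1 j hj
    have := hc1 j hj
    omega
  · simp only [act, Fin.cons_succ]
    rw [hv2 j hj, hc2 j hj]

lemma act_inj {e k : ℕ} {A M L : ℕ} {J : Finset (Fin e)} (hk : 1 ≤ k)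
    {T T' : (Fin e → ℕ) × ℕ × (Fin e → ℕ)} (hT : T ∈ par A M L J) (hT' : T' ∈ par A M L J)
    {s : Fin k → Fin (e + 1) → ℕ} (hs : Ind J s)
    (h : (fun i => act T (s i)) = (fun i => act T' (s i))) : T = T' := by
  rw [mem_par] at hT hT'
  have hc : T.2.2 = T'.2.2 := by
    funext j
    have := congrFun (congrFun h ⟨0, hk⟩) j.succ
    simp only [act, Fin.cons_succ] at this
    omega
  have h0 := hs (fun j => (T.1 j : ℝ) - (T'.1 j : ℝ)) ((T.2.1 : ℝ) - (T'.2.1 : ℝ))
    (fun j hj => by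
      rw [hT.1.2 j hj, hT'.1.2 j hj, sub_self])
    (fun i => by
      have := congrFun (congrFun h i) 0
      simp only [act, Fin.cons_zero] at this
      have h2 : ((s i 0 + ∑ j, T.1 j * s i j.succ + T.2.1 : ℕ) : ℝ) =
          ((s i 0 + ∑ j, T'.1 j * s i j.succ + T'.2.1 : ℕ) : ℝ) := by
        exact_mod_cast this
      push_cast at h2
      simp only [sub_mul, Finset.sum_sub_distrib]
      linarith)
  have ha : T.1 = T'.1 := by
    funext j
    have := congrFun h0.1 j
    simp only [Pi.zero_apply] at this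
    have h3 : (T.1 j : ℝ) = (T'.1 j : ℝ) := by linarith
    exact_mod_cast h3
  have hb : T.2.1 = T'.2.1 := by
    have h3 : (T.2.1 : ℝ) = (T'.2.1 : ℝ) := by linarith [h0.2]
    exact_mod_cast h3
  exact Prod.ext ha (Prod.ext hb hc)

lemma good_subset {e k M L : ℕ} (J : Finset (Fin e)) {s : Fin k → Fin (e + 1) → ℕ}
    (hs : s ∈ good k M L J) (i : Fin k) : s i ∈ box M L J := by
  rw [mem_box]
  exact ⟨hs.1 i, hs.2.1 i, hs.2.2.1 i⟩

lemma good_finite {e : ℕ} (k M L : ℕ) (J : Finset (Fin e)) : (good k M L J).Finite := by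
  apply Set.Finite.subset (Finset.finite_toSet (Fintype.piFinset (fun _ : Fin k => box M L J)))
  intro s hs
  rw [Finset.mem_coe, Fintype.mem_piFinset]
  exact good_subset J hs

/-- The classes of type `J`. -/
noncomputable def clsJ {e : ℕ} (k M L : ℕ) (J : Finset (Fin e)) :
    Finset (Quotient (affSetoid (e + 1))) :=
  ((good_finite k M L J).image cl).toFinset

lemma card_clsJ {e k : ℕ} (hk : 1 ≤ k) {A M L : ℕ} (hAL : A * L ≤ M) (J : Finset (Fin e)) :
    (clsJ k M L J).card * (A ^ J.card * (M * L ^ J.card)) ≤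
      ((J.card + 2) * M * (2 * L) ^ J.card) ^ k := by
  classical
  have hrep : ∀ C : Quotient (affSetoid (e + 1)), ∃ s : Fin k → Fin (e + 1) → ℕ,
      C ∈ clsJ k M L J → (s ∈ good k M L J ∧ cl s = C) := by
    intro C
    by_cases hC : C ∈ clsJ k M L J
    · have hC' := hC
      unfold clsJ at hC'
      rw [Set.Finite.mem_toFinset] at hC'
      obtain ⟨s, hs, hsC⟩ := hC'
      exact ⟨s, fun _ => ⟨hs, hsC⟩⟩
    · exact ⟨fun _ _ => 0, fun h => absurd h hC⟩
  choose rep hrep using hrep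
  rw [← card_par, ← card_box, ← Finset.card_product]
  have h2 : (Fintype.piFinset (fun _ : Fin k => box ((J.card + 2) * M) (2 * L) J)).card =
      (box ((J.card + 2) * M) (2 * L) J).card ^ k := by
    rw [Fintype.card_piFinset]
    simp
  rw [← h2]
  apply Finset.card_le_card_of_injOn (fun z => (fun i => act z.2 (rep z.1 i)))
  · intro z hz
    rw [Finset.mem_coe, Finset.mem_product] at hz
    rw [Finset.mem_coe, Fintype.mem_piFinset]
    intro i
    exact act_mem hAL hz.2 (good_subset J (hrep z.1 hz.1).1 i)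
  · intro z hz z' hz' hzz
    rw [Finset.mem_coe, Finset.mem_product] at hz hz'
    simp only at hzz
    have e1 : z.1 = z'.1 := by
      rw [← (hrep z.1 hz.1).2, ← (hrep z'.1 hz'.1).2, ← cl_act z.2 (rep z.1),
        ← cl_act z'.2 (rep z'.1), hzz]
    have e2 : z.2 = z'.2 := by
      rw [← e1] at hzz
      exact act_inj hk hz.2 hz'.2 (hrep z.1 hz.1).1.2.2.2 hzz
    exact Prod.ext e1 e2

/-- The point set of the construction. -/
noncomputable def pts (e M L : ℕ) : Finset (Fin (e + 1) → ℝ) :=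
  (box M L (univ : Finset (Fin e))).image emb

lemma card_pts (e M L : ℕ) : (pts e M L).card = M * L ^ e := by
  unfold pts
  rw [Finset.card_image_of_injective _ emb_injective, card_box]
  simp

lemma exists_maximal_J {e k : ℕ} (hk : 1 ≤ k) (s : Fin k → Fin (e + 1) → ℕ) :
    ∃ J : Finset (Fin e), Ind J s ∧ ∀ j ∉ J, ¬ Ind (insert j J) s := by
  classical
  have h0 : Ind (∅ : Finset (Fin e)) s := by
    intro a b ha hb
    have ha' : a = 0 := by
      funext j
      exact ha j (Finset.notMem_empty j)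
    refine ⟨ha', ?_⟩
    have := hb ⟨0, hk⟩
    rw [ha'] at this
    simpa using this
  obtain ⟨J, hJ, hmax⟩ := Finset.exists_max_image
    (univ.filter (fun J : Finset (Fin e) => Ind J s)) Finset.card
    ⟨∅, by simpa using h0⟩
  refine ⟨J, by simpa using hJ, fun j hj hI => ?_⟩
  have := hmax (insert j J) (by simpa using hI)
  rw [Finset.card_insert_of_notMem hj] at this
  omega

lemma exists_relation {e k : ℕ} {s : Fin k → Fin (e + 1) → ℕ} {J : Finset (Fin e)}
    (hJ : Ind J s) {j : Fin e} (hj : j ∉ J) (hn : ¬ Ind (insert j J) s) :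
    ∃ (α : Fin e → ℝ) (β : ℝ), (∀ i ∉ J, α i = 0) ∧
      ∀ m, (s m j.succ : ℝ) = ∑ i, α i * (s m i.succ : ℝ) + β := by
  unfold Ind at hn
  push Not at hn
  obtain ⟨a, b, ha, hb, hne⟩ := hn
  have haj : a j ≠ 0 := by
    intro h0
    have h1 := hJ a b (fun i hi => by
      by_cases hij : i = j
      · rw [hij, h0]
      · exact ha i (fun h => by
          rcases Finset.mem_insert.1 h with h | h
          · exact hij h
          · exact hi h)) hb
    exact hne h1.1 h1.2
  refine ⟨fun i => if i = j then 0 else -(a i) / a j, -b / a j, fun i hi => ?_, fun m => ?_⟩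
  · by_cases hij : i = j
    · simp [hij]
    · simp only [hij, if_false]
      rw [ha i (fun h => by
          rcases Finset.mem_insert.1 h with h | h
          · exact hij h
          · exact hi h)]
      simp
  · have h1 := hb m
    rw [← Finset.add_sum_erase _ _ (Finset.mem_univ j)] at h1
    rw [← Finset.add_sum_erase _ _ (Finset.mem_univ j)]
    have h2 : ∑ i ∈ univ.erase j, (if i = j then (0 : ℝ) else -(a i) / a j) * (s m i.succ : ℝ) =
        -(∑ i ∈ univ.erase j, a i * (s m i.succ : ℝ)) / a j := by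
      rw [neg_div, Finset.sum_div, ← Finset.sum_neg_distrib]
      apply Finset.sum_congr rfl
      intro i hi
      rw [if_neg (Finset.ne_of_mem_erase hi)]
      ring
    simp only [if_true, zero_mul, zero_add]
    rw [h2, ← add_div, eq_div_iff haj]
    linarith

lemma exists_type {e k : ℕ} (hk : 1 ≤ k) {M L : ℕ} (s : Fin k → Fin (e + 1) → ℕ)
    (hs : ∀ i, s i ∈ box M L (univ : Finset (Fin e))) :
    ∃ J : Finset (Fin e), cl s ∈ clsJ k M L J := by
  classical
  obtain ⟨J, hJ, hmax⟩ := exists_maximal_J hk s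
  have hrel : ∀ j : Fin e, ∃ (α : Fin e → ℝ) (β : ℝ), (j ∈ J → α = 0 ∧ β = 0) ∧
      (∀ i ∉ J, α i = 0) ∧ (j ∉ J → ∀ m, (s m j.succ : ℝ) = ∑ i, α i * (s m i.succ : ℝ) + β) := by
    intro j
    by_cases hj : j ∈ J
    · exact ⟨0, 0, fun _ => ⟨rfl, rfl⟩, fun i _ => rfl, fun h => absurd hj h⟩
    · obtain ⟨α, β, h1, h2⟩ := exists_relation hJ hj (hmax j hj)
      exact ⟨α, β, fun h => absurd h hj, h1, fun _ => h2⟩
  choose α β h1 h2 h3 using hrel
  set s' : Fin k → Fin (e + 1) → ℕ := fun m =>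
    Fin.cons (s m 0) (fun j => if j ∈ J then s m j.succ else 0) with hs'
  refine ⟨J, ?_⟩
  unfold clsJ
  rw [Set.Finite.mem_toFinset]
  refine ⟨s', ⟨fun i => ?_, fun i j hj => ?_, fun i j hj => ?_, ?_⟩, ?_⟩
  · have := hs i
    rw [mem_box] at this
    simpa [hs'] using this.1
  · have := hs i
    rw [mem_box] at this
    simpa [hs', hj] using this.2.1 j (Finset.mem_univ j)
  · simp [hs', hj]
  · intro a b ha hb
    apply hJ a b ha
    intro i
    rw [← hb i]
    congr 1
    apply Finset.sum_congr rfl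
    intro j _
    by_cases hj : j ∈ J
    · simp [hs', hj]
    · simp [ha j hj]
  · apply Quotient.sound
    apply (affineEq_equivalence (e + 1)).symm
    apply affineEq_of_map (lin (fun _ => 0) α) (lin_injective _ _ J (fun j hj => (h1 j hj).1) h2)
      (Fin.cons 0 (fun j => -(β j)))
    intro m
    funext i
    refine Fin.cases ?_ (fun j => ?_) i
    · rw [Pi.add_apply, lin_zero]
      simp [emb, hs']
    · rw [Pi.add_apply, lin_succ]
      by_cases hj : j ∈ J
      · simp [emb, hs', hj, (h1 j hj).1, (h1 j hj).2]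
      · have := h3 j hj m
        simp only [emb, hs', Fin.cons_succ, hj, if_false, Nat.cast_zero]
        rw [this]
        ring

lemma classCount_pts_le {e k : ℕ} (hk : 1 ≤ k) (M L : ℕ) :
    classCount (e + 1) k (pts e M L) ≤
      ∑ J : Finset (Fin e), (clsJ k M L J).card := by
  classical
  have hsub : classes (e + 1) k (pts e M L) ⊆
      ((univ.biUnion (fun J : Finset (Fin e) => clsJ k M L J) :
        Finset (Quotient (affSetoid (e + 1)))) : Set _) := by
    rintro C ⟨A, hA, rfl⟩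
    obtain ⟨hAP, hAc⟩ := Finset.mem_powersetCard.1 hA
    let E : Fin k ≃ A := (Finset.equivFinOfCardEq hAc).symm
    have hv : ∀ i : Fin k, ∃ v : Fin (e + 1) → ℕ, v ∈ box M L (univ : Finset (Fin e)) ∧
        emb v = (E i : Fin (e + 1) → ℝ) := by
      intro i
      have := hAP (E i).2
      unfold pts at this
      rw [Finset.mem_image] at this
      exact this
    choose s hs1 hs2 using hv
    obtain ⟨J, hJ⟩ := exists_type hk s hs1
    have hA' : univ.image (fun i => emb (s i)) = A := by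
      ext x
      rw [Finset.mem_image]
      constructor
      · rintro ⟨i, _, rfl⟩
        rw [hs2 i]
        exact (E i).2
      · intro hx
        refine ⟨E.symm ⟨x, hx⟩, Finset.mem_univ _, ?_⟩
        rw [hs2, Equiv.apply_symm_apply]
    rw [Finset.mem_coe, Finset.mem_biUnion]
    refine ⟨J, Finset.mem_univ _, ?_⟩
    unfold cl at hJ
    rwa [hA'] at hJ
  unfold classCount
  calc (classes (e + 1) k (pts e M L)).ncard
      ≤ ((univ.biUnion (fun J : Finset (Fin e) => clsJ k M L J) :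
        Finset (Quotient (affSetoid (e + 1)))) : Set _).ncard :=
        Set.ncard_le_ncard hsub (Finset.finite_toSet _)
    _ = (univ.biUnion (fun J : Finset (Fin e) => clsJ k M L J)).card :=
        Set.ncard_coe_finset _
    _ ≤ _ := Finset.card_biUnion_le

lemma classCount_upper {e k : ℕ} (hk : 1 ≤ k) {L : ℕ} (hL : 1 ≤ L) :
    classCount (e + 1) k (pts e (L ^ k) L) ≤
      2 ^ e * ((e + 2) * 2 ^ e) ^ k * L ^ (k * (k - 1)) := by
  have hJ : ∀ J : Finset (Fin e), (clsJ k (L ^ k) L J).card ≤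
      ((e + 2) * 2 ^ e) ^ k * L ^ (k * (k - 1)) := by
    intro J
    have hAL : L ^ (k - 1) * L ≤ L ^ k := by
      rw [← pow_succ]
      exact Nat.pow_le_pow_right hL (by omega)
    have h := card_clsJ hk hAL J
    set r := J.card with hr
    have hre : r ≤ e := by
      have := Finset.card_le_univ J
      simpa using this
    obtain ⟨q, rfl⟩ : ∃ q, k = q + 1 := ⟨k - 1, by omega⟩
    have e1 : (L ^ (q + 1 - 1)) ^ r * (L ^ (q + 1) * L ^ r) = L ^ ((q + 1) * r + (q + 1)) := by
      rw [← pow_mul, ← pow_add, ← pow_add]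
      congr 1
      simp only [Nat.add_sub_cancel]
      ring
    have e2 : ((r + 2) * L ^ (q + 1) * (2 * L) ^ r) ^ (q + 1) =
        (((r + 2) * 2 ^ r) ^ (q + 1) * L ^ ((q + 1) * (q + 1 - 1))) *
          L ^ ((q + 1) * r + (q + 1)) := by
      simp only [Nat.add_sub_cancel, mul_pow, ← pow_mul]
      rw [show L ^ ((q + 1) * (q + 1)) = L ^ ((q + 1) * q) * L ^ (q + 1) by
        rw [← pow_add]; ring_nf, show L ^ ((q + 1) * r + (q + 1)) = L ^ (r * (q + 1)) * L ^ (q + 1) by
        rw [← pow_add]; ring_nf]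
      ring
    rw [e1, e2] at h
    have h' := Nat.le_of_mul_le_mul_right h (pow_pos (by omega) _)
    refine h'.trans ?_
    apply Nat.mul_le_mul_right
    apply Nat.pow_le_pow_left
    exact Nat.mul_le_mul (by omega) (Nat.pow_le_pow_right (by norm_num) hre)
  refine (classCount_pts_le hk _ _).trans ?_
  calc ∑ J : Finset (Fin e), (clsJ k (L ^ k) L J).card
      ≤ ∑ _J : Finset (Fin e), ((e + 2) * 2 ^ e) ^ k * L ^ (k * (k - 1)) :=
        Finset.sum_le_sum (fun J _ => hJ J)
    _ = _ := by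
        rw [Finset.sum_const, Finset.card_univ, Fintype.card_finset, Fintype.card_fin,
          smul_eq_mul, mul_assoc]

/-! ### The function `f` -/

lemma f_le_classCount {d k n : ℕ} (P : Finset (Fin d → ℝ)) (hP : P.card = n) :
    f d k n ≤ classCount d k P := Nat.sInf_le ⟨P, hP, rfl⟩

lemma f_mem {d : ℕ} (hd : 1 ≤ d) (k n : ℕ) :
    ∃ P : Finset (Fin d → ℝ), P.card = n ∧ f d k n = classCount d k P := by
  have : Nonempty (Fin d) := ⟨⟨0, hd⟩⟩
  have hne : {c | ∃ P : Finset (Fin d → ℝ), P.card = n ∧ classCount d k P = c}.Nonempty := by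
    obtain ⟨P, hP⟩ := Infinite.exists_subset_card_eq (Fin d → ℝ) n
    exact ⟨_, P, hP, rfl⟩
  obtain ⟨P, hP, hc⟩ := Nat.sInf_mem hne
  exact ⟨P, hP, hc.symm⟩

lemma f_upper {d k : ℕ} (hd : 1 ≤ d) (hk : 1 ≤ k) : ∃ C : ℝ, 0 < C ∧ ∀ n : ℕ, 1 ≤ n →
    (f d k n : ℝ) ≤ C * (n : ℝ) ^ (((k : ℝ) * ((k : ℝ) - 1)) / ((k : ℝ) + (d : ℝ) - 1)) := by
  obtain ⟨e, rfl⟩ : ∃ e, d = e + 1 := ⟨d - 1, by omega⟩
  set K : ℝ := 2 ^ e * ((e + 2) * 2 ^ e) ^ k with hK
  refine ⟨K * 2 ^ (k * (k - 1)), by positivity, fun n hn => ?_⟩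
  have hn1 : (1 : ℝ) ≤ n := by exact_mod_cast hn
  have hke : (0 : ℝ) < (k : ℝ) + e := by
    have : (1 : ℝ) ≤ k := by exact_mod_cast hk
    positivity
  set x : ℝ := (n : ℝ) ^ (1 / ((k : ℝ) + e)) with hx
  have hx1 : 1 ≤ x := Real.one_le_rpow hn1 (by positivity)
  set L : ℕ := ⌈x⌉₊ with hL
  have hL1 : 1 ≤ L := by
    rw [hL, Nat.one_le_ceil_iff]
    linarith
  have hLx : x ≤ L := Nat.le_ceil x
  have hL2 : (L : ℝ) ≤ 2 * x := by
    have := Nat.ceil_lt_add_one (show (0 : ℝ) ≤ x by linarith)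
    rw [← hL] at this
    linarith
  have hxpow : x ^ (k + e) = n := by
    rw [hx, ← Real.rpow_natCast, ← Real.rpow_mul (by linarith)]
    have : 1 / ((k : ℝ) + e) * ((k + e : ℕ) : ℝ) = 1 := by
      push_cast
      field_simp
    rw [this, Real.rpow_one]
  have hcard : n ≤ (pts e (L ^ k) L).card := by
    rw [card_pts, ← pow_add]
    have : (n : ℝ) ≤ ((L ^ (k + e) : ℕ) : ℝ) := by
      rw [← hxpow]
      push_cast
      exact pow_le_pow_left₀ (by linarith) hLx _
    exact_mod_cast this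
  obtain ⟨P, hPsub, hPcard⟩ := Finset.exists_subset_card_eq hcard
  have h1 : f (e + 1) k n ≤ 2 ^ e * ((e + 2) * 2 ^ e) ^ k * L ^ (k * (k - 1)) :=
    (f_le_classCount P hPcard).trans ((classCount_mono _ _ hPsub).trans
      (classCount_upper hk hL1))
  have h2 : (f (e + 1) k n : ℝ) ≤ K * (L : ℝ) ^ (k * (k - 1)) := by
    have : (f (e + 1) k n : ℝ) ≤
        ((2 ^ e * ((e + 2) * 2 ^ e) ^ k * L ^ (k * (k - 1)) : ℕ) : ℝ) := by exact_mod_cast h1
    rw [hK]
    push_cast at this
    exact this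
  have h3 : (L : ℝ) ^ (k * (k - 1)) ≤ 2 ^ (k * (k - 1)) * x ^ (k * (k - 1)) := by
    rw [← mul_pow]
    exact pow_le_pow_left₀ (by positivity) hL2 _
  have h4 : x ^ (k * (k - 1)) =
      (n : ℝ) ^ (((k : ℝ) * ((k : ℝ) - 1)) / ((k : ℝ) + ((e + 1 : ℕ) : ℝ) - 1)) := by
    rw [hx, ← Real.rpow_natCast, ← Real.rpow_mul (by linarith)]
    congr 1
    have : ((k - 1 : ℕ) : ℝ) = (k : ℝ) - 1 := by
      rw [Nat.cast_sub hk]
      simp
    push_cast
    rw [this]
    have h5 : (k : ℝ) + ((e : ℝ) + 1) - 1 = k + e := by ring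
    rw [h5]
    field_simp
  rw [← h4]
  calc (f (e + 1) k n : ℝ) ≤ K * (L : ℝ) ^ (k * (k - 1)) := h2
    _ ≤ K * (2 ^ (k * (k - 1)) * x ^ (k * (k - 1))) :=
        mul_le_mul_of_nonneg_left h3 (by positivity)
    _ = _ := by ring

lemma f_lower {d k : ℕ} (hd : 1 ≤ d) (hk : 1 ≤ k) : ∃ c : ℝ, 0 < c ∧ ∀ n : ℕ, k ≤ n →
    c * (n : ℝ) ^ ((k : ℝ) - (d : ℝ) - 1) ≤ (f d k n : ℝ) := by
  have hfac : (0 : ℝ) < (k.factorial : ℝ) := by exact_mod_cast Nat.factorial_pos _
  have hk0 : (0 : ℝ) < (k : ℝ) := by exact_mod_cast hk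
  refine ⟨1 / ((k : ℝ) ^ k * (k.factorial : ℝ)), by positivity, fun n hn => ?_⟩
  obtain ⟨P, hP, hf⟩ := f_mem hd k n
  have hn1 : 1 ≤ n := hk.trans hn
  have hn0 : (0 : ℝ) < (n : ℝ) := by exact_mod_cast hn1
  have h1 := choose_le d k P (by omega)
  rw [hP, ← hf] at h1
  have h2 : ((n + 1 - k : ℕ) : ℝ) ^ k / (k.factorial : ℝ) ≤ ((n.choose k : ℕ) : ℝ) :=
    Nat.pow_le_choose k n
  have h3 : (n : ℝ) ≤ (k : ℝ) * ((n + 1 - k : ℕ) : ℝ) := by
    have : n ≤ k * (n + 1 - k) := by
      obtain ⟨m, rfl⟩ := Nat.exists_eq_add_of_le hn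
      obtain ⟨q, rfl⟩ : ∃ q, k = q + 1 := ⟨k - 1, by omega⟩
      have : q + 1 + m + 1 - (q + 1) = m + 1 := by omega
      rw [this]
      nlinarith [Nat.zero_le (q * m)]
    exact_mod_cast this
  have h4 : (n : ℝ) ^ k ≤ (k : ℝ) ^ k * (k.factorial : ℝ) * ((n.choose k : ℕ) : ℝ) := by
    rw [div_le_iff₀ hfac] at h2
    calc (n : ℝ) ^ k ≤ ((k : ℝ) * ((n + 1 - k : ℕ) : ℝ)) ^ k := pow_le_pow_left₀ hn0.le h3 _
      _ = (k : ℝ) ^ k * ((n + 1 - k : ℕ) : ℝ) ^ k := mul_pow _ _ _
      _ ≤ (k : ℝ) ^ k * (((n.choose k : ℕ) : ℝ) * (k.factorial : ℝ)) :=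
          mul_le_mul_of_nonneg_left h2 (by positivity)
      _ = _ := by ring
  have h5 : ((n.choose k : ℕ) : ℝ) ≤ (f d k n : ℝ) * (n : ℝ) ^ (d + 1) := by
    exact_mod_cast h1
  have h6 : (n : ℝ) ^ ((k : ℝ) - (d : ℝ) - 1) = (n : ℝ) ^ k / (n : ℝ) ^ (d + 1) := by
    rw [show (k : ℝ) - (d : ℝ) - 1 = (k : ℝ) - ((d + 1 : ℕ) : ℝ) by push_cast; ring,
      Real.rpow_sub hn0, Real.rpow_natCast, Real.rpow_natCast]
  rw [h6, div_mul_div_comm, one_mul, div_le_iff₀ (by positivity)]
  calc (n : ℝ) ^ k ≤ (k : ℝ) ^ k * (k.factorial : ℝ) * ((n.choose k : ℕ) : ℝ) := h4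
    _ ≤ (k : ℝ) ^ k * (k.factorial : ℝ) * ((f d k n : ℝ) * (n : ℝ) ^ (d + 1)) :=
        mul_le_mul_of_nonneg_left h5 (by positivity)
    _ = _ := by ring

/-! ### The line -/

/-- The point of `ℝ^1` with coordinate `r`. -/
def lift1 (r : ℝ) : Fin 1 → ℝ := fun _ => r

lemma lift1_injective : Function.Injective lift1 := fun r r' h => congrFun h 0

lemma lift1_eq (x : Fin 1 → ℝ) : lift1 (x 0) = x := by
  funext i
  rw [Subsingleton.elim i 0]
  rfl

lemma affine_one (T : (Fin 1 → ℝ) ≃ᵃ[ℝ] (Fin 1 → ℝ)) :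
    ∃ l t : ℝ, l ≠ 0 ∧ ∀ r : ℝ, T (lift1 r) = lift1 (l * r + t) := by
  have h : ∀ r : ℝ, T (lift1 r) = r • T.linear (lift1 1) + T 0 := by
    intro r
    have h1 : T (lift1 r + 0) = T.linear (lift1 r) + T 0 := T.map_vadd 0 (lift1 r)
    rw [add_zero] at h1
    have h2 : lift1 r = r • lift1 1 := by
      funext i
      simp [lift1]
    rw [h1]
    conv_lhs => rw [h2]
    rw [map_smul]
  refine ⟨(T.linear (lift1 1)) 0, T 0 0, ?_, ?_⟩
  · intro h0
    have h1 : T.linear (lift1 1) = 0 := by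
      rw [← lift1_eq (T.linear (lift1 1)), h0]
      rfl
    have h2 : lift1 1 = 0 := T.linear.injective (by rw [h1, map_zero])
    have := congrFun h2 0
    simp [lift1] at this
  · intro r
    rw [h r]
    funext i
    rw [Subsingleton.elim i 0]
    simp [lift1, mul_comm]

lemma affineEq_one {A B : Finset ℝ} (h : AffineEq 1 (A.image lift1) (B.image lift1)) :
    ∃ l t : ℝ, l ≠ 0 ∧ A.image (fun x => l * x + t) = B := by
  obtain ⟨T, hT⟩ := h
  obtain ⟨l, t, hl, hlt⟩ := affine_one T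
  refine ⟨l, t, hl, ?_⟩
  have h1 : (A.image (fun x => l * x + t)).image lift1 = B.image lift1 := by
    rw [← Finset.coe_inj, ← hT, Finset.image_image, Finset.coe_image, Finset.coe_image,
      ← Set.image_comp]
    apply Set.image_congr
    intro r _
    exact (hlt r).symm
  exact Finset.image_injective lift1_injective h1

lemma hom_le_two_mul (k : ℕ) (P : Finset (Fin 1 → ℝ)) :
    Helper514.Hom.classCount k (P.image (fun x => x 0)) ≤ 2 * classCount 1 k P := by
  classical
  set X := P.image (fun x => x 0) with hX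
  have hXP : X.image lift1 = P := by
    rw [hX, Finset.image_image]
    have : (lift1 ∘ fun x : Fin 1 → ℝ => x 0) = id := by
      funext x
      exact lift1_eq x
    rw [this, Finset.image_id]
  set H := (X.powersetCard k).image (fun A => Quotient.mk Helper514.Hom.homSetoid A) with hH
  have hrep : ∀ C : Quotient Helper514.Hom.homSetoid, ∃ A : Finset ℝ, C ∈ H →
      (A ∈ X.powersetCard k ∧ Quotient.mk Helper514.Hom.homSetoid A = C) := by
    intro C
    by_cases hC : C ∈ H
    · obtain ⟨A, hA, hAC⟩ := Finset.mem_image.1 hC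
      exact ⟨A, fun _ => ⟨hA, hAC⟩⟩
    · exact ⟨∅, fun h => absurd h hC⟩
  choose rep hrep using hrep
  have hfin := classes_finite 1 k P
  have h1 : H.card ≤ 2 * hfin.toFinset.card := by
    apply Finset.card_le_mul_card_image_of_maps_to
      (f := fun C => Quotient.mk (affSetoid 1) ((rep C).image lift1))
    · intro C hC
      rw [Set.Finite.mem_toFinset]
      refine ⟨(rep C).image lift1, ?_, rfl⟩
      obtain ⟨h1, h2⟩ := Finset.mem_powersetCard.1 (hrep C hC).1
      rw [Finset.mem_powersetCard, Finset.card_image_of_injective _ lift1_injective, ← hXP]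
      exact ⟨Finset.image_subset_image h1, h2⟩
    · intro D _
      by_contra hlt
      push Not at hlt
      obtain ⟨C₁, hC₁, C₂, hC₂, C₃, hC₃, h12, h13, h23⟩ := Finset.two_lt_card.1 hlt
      rw [Finset.mem_filter] at hC₁ hC₂ hC₃
      have key : ∀ C C', C ∈ H → C' ∈ H → Quotient.mk (affSetoid 1) ((rep C).image lift1) =
          Quotient.mk (affSetoid 1) ((rep C').image lift1) → C ≠ C' →
          ∃ l t : ℝ, l < 0 ∧ (rep C).image (fun x => l * x + t) = rep C' := by
        intro C C' hC hC' he hne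
        obtain ⟨l, t, hl, hlt⟩ := affineEq_one (Quotient.exact he)
        refine ⟨l, t, lt_of_le_of_ne (not_lt.1 fun hpos => hne ?_) hl, hlt⟩
        rw [← (hrep C hC).2, ← (hrep C' hC').2]
        exact Quotient.sound ⟨l, t, hpos, hlt⟩
      obtain ⟨l, t, hl, hlt1⟩ := key C₁ C₂ hC₁.1 hC₂.1 (hC₁.2.trans hC₂.2.symm) h12
      obtain ⟨l', t', hl', hlt2⟩ := key C₂ C₃ hC₂.1 hC₃.1 (hC₂.2.trans hC₃.2.symm) h23
      apply h13
      rw [← (hrep C₁ hC₁.1).2, ← (hrep C₃ hC₃.1).2]
      refine Quotient.sound ⟨l' * l, l' * t + t', mul_pos_of_neg_of_neg hl' hl, ?_⟩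
      rw [← hlt2, ← hlt1, Finset.image_image]
      congr 1
      funext x
      simp only [Function.comp]
      ring
  unfold classCount
  rw [Set.ncard_eq_toFinset_card _ hfin]
  unfold Helper514.Hom.classCount
  convert h1 using 2

lemma f_one_lower {k : ℕ} (hk : 4 ≤ k) : ∃ c : ℝ, 0 < c ∧ ∀ n : ℕ, k ≤ n →
    c * (n : ℝ) ^ (k - 1) ≤ (f 1 k n : ℝ) := by
  obtain ⟨c, hc, h⟩ := Helper514.Hom.hom_lower k hk
  refine ⟨c / 2, by positivity, fun n hn => ?_⟩
  obtain ⟨P, hP, hf⟩ := f_mem (le_refl 1) k n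
  have hinj : Function.Injective (fun x : Fin 1 → ℝ => x 0) := by
    intro x y hxy
    rw [← lift1_eq x, ← lift1_eq y]
    exact congrArg lift1 hxy
  have hXc : (P.image (fun x => x 0)).card = n := by
    rw [Finset.card_image_of_injective _ hinj, hP]
  have h1 := h (P.image (fun x => x 0)) (by omega)
  rw [hXc] at h1
  have h2 : (Helper514.Hom.classCount k (P.image (fun x => x 0)) : ℝ) ≤
      2 * (classCount 1 k P : ℝ) := by exact_mod_cast hom_le_two_mul k P
  rw [hf]
  linarith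

/-- **Main theorem.** -/
theorem result :
    (∀ d k : ℕ, 1 ≤ d → 1 ≤ k → ∃ c C : ℝ, 0 < c ∧ 0 < C ∧ ∀ n : ℕ, k ≤ n →
      c * (n : ℝ) ^ ((k : ℝ) - (d : ℝ) - 1) ≤ (f d k n : ℝ) ∧
      (f d k n : ℝ) ≤ C * (n : ℝ) ^ (((k : ℝ) * ((k : ℝ) - 1)) / ((k : ℝ) + (d : ℝ) - 1))) ∧
    (∀ k : ℕ, 4 ≤ k → ∃ c C : ℝ, 0 < c ∧ 0 < C ∧ ∀ n : ℕ, k ≤ n →
      c * (n : ℝ) ^ (k - 1) ≤ (f 1 k n : ℝ) ∧ (f 1 k n : ℝ) ≤ C * (n : ℝ) ^ (k - 1)) := by
  refine ⟨fun d k hd hk => ?_, fun k hk => ?_⟩
  · obtain ⟨c, hc, h1⟩ := f_lower hd hk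
    obtain ⟨C, hC, h2⟩ := f_upper hd hk
    exact ⟨c, C, hc, hC, fun n hn => ⟨h1 n hn, h2 n (hk.trans hn)⟩⟩
  · obtain ⟨c, hc, h1⟩ := f_one_lower hk
    obtain ⟨C, hC, h2⟩ := f_upper (le_refl 1) (show 1 ≤ k by omega)
    refine ⟨c, C, hc, hC, fun n hn => ⟨h1 n hn, ?_⟩⟩
    have h3 := h2 n (by omega)
    have hk0 : (k : ℝ) ≠ 0 := by
      have : k ≠ 0 := by omega
      exact_mod_cast this
    have h4 : (k : ℝ) * ((k : ℝ) - 1) / ((k : ℝ) + ((1 : ℕ) : ℝ) - 1) = ((k - 1 : ℕ) : ℝ) := by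
      rw [Nat.cast_sub (by omega)]
      push_cast
      rw [add_sub_cancel_right]
      field_simp
    rw [h4, Real.rpow_natCast] at h3
    exact h3

end Pool.Agent.Results.MP_b430f2_co.OrderBounds
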